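import Pool.Agent.N883.FF.StmC
import Pool.Agent.N883.FF.StmN

/-!
# Project SM (helper848): Schneider's conjecture for `p = 3` for 83 percent of all `K(∛D)`, statements

`K = ℚ(ω)`, `D = ω ^ i λ ^ k ∏ π ^ (e π)`, `λ = 1 + 2 ω = √-3`, `i ∈ ZMod 3`, `k ∈ {0, 1, 2}`, `π = 1`
modulo `3`, `e π ∈ {1, 2}` (all cube-free elements of `ℤ[ω]` up to sign). For `α = 1 + 3 z` the
labels `nq α = (nr α - 1) / 3` and `mq α = (im α) / 3` determine `z` modulo `3`; they are the symbols of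
`ω` and of `λ⁻¹`. The condition at `D` is `Gd3 (i, -k)`: project FF (helper883) has the condition with
`k = 0` and without the last two equations (the conditions at the prime above three).
-/

set_option autoImplicit false
set_option linter.unusedVariables false

open scoped Classical

namespace Pool.Agent.N848.SM

open Finset
open Pool.Agent.Y692.QS (Ei w nr toC)
open Pool.Agent.Y715.T.Rec (cs)
open Pool.Agent.Y715.T.RecG (Pq)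
open Pool.Agent.Y699.E (ez nrm QB SB PS mf xab lg)
open Pool.Agent.Y703.CX (jj XX eL zz kk)
open Pool.Agent.Y703.XK (sm la bl prs HB c9 S_BIL S_EQ S_LA S_C9 S_SYM ext)
open Pool.Agent.R419.KF (wt SG el)
open Pool.Agent.N883.FF (nq ClU SU RRU ClP)

/-- the second label of an element that is `1` modulo three -/
def mq (α : Ei) : ZMod 3 := ((α.im / 3 : ℤ) : ZMod 3)

/-- all solutions of the system with the two additional equations are zero -/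
def Gd3 (i : ZMod 3 × ZMod 3) (M S : Finset Ei) : Prop :=
  ∀ v : Ei → ZMod 3,
    (∀ π ∈ S, ∑ ρ ∈ S, wt M ρ * cs π ρ * (v ρ - v π) = (i.1 * nq π + i.2 * mq π) * v π) →
    ∑ π ∈ S, wt M π * nq π * v π = 0 → ∑ π ∈ S, wt M π * mq π * v π = 0 → ∀ π ∈ S, v π = 0

/-- `ω ^ i.1 λ ^ (-i.2) ∏ π ^ (wt π)` is not a cube at the prime above three -/
def Nz (i : ZMod 3 × ZMod 3) (M S : Finset Ei) : Prop :=
  i ≠ 0 ∨ ∑ π ∈ S, wt M π * nq π ≠ 0 ∨ ∑ π ∈ S, wt M π * mq π ≠ 0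

/-- the labels of the large primes with respect to the small ones and to three are not degenerate -/
def Nd3 (S₀ S₁ : Finset Ei) : Prop :=
  ∀ (v : Ei → ZMod 3) (t s : ZMod 3), ((∃ u ∈ S₀, v u ≠ 0) ∨ t ≠ 0 ∨ s ≠ 0) →
    ∃ π ∈ S₁, ∑ u ∈ S₀, v u * cs u π + t * nq π + s * mq π ≠ 0

/-- all solutions of the block system with one more equation are constant -/
def GdA3 {U J : Type} [Fintype U] [Fintype J] (A : U → U → ZMod 3) (B : U → J → ZMod 3)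
    (R : J → J → ZMod 3) (f : U → ZMod 3) (g : J → ZMod 3) : Prop :=
  ∀ (c : U → ZMod 3) (d : J → ZMod 3),
    (∀ u, ∑ v, A u v * (c v - c u) + ∑ l, B u l * (d l - c u) = 0) →
    (∀ k, ∑ u, B u k * (c u - d k) + ∑ l, R k l * (d l - d k) = 0) →
    ∑ u, f u * c u + ∑ l, g l * d l = 0 →
    ∃ t : ZMod 3, (∀ u, c u = t) ∧ ∀ l, d l = t

/-- SM/LA: the probability that a random symmetric completion is good, with one more equation. -/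
def S_LA3 : Prop := ∀ (U J : Type) [Fintype U] [Fintype J] [LinearOrder J]
  (A : U → U → ZMod 3) (B : U → J → ZMod 3) (f : U → ZMod 3) (g : J → ZMod 3),
  Fintype.card U + 1 < Fintype.card J →
  (∀ u v, A u v = A v u) → ∑ u, f u + ∑ l, g l = 0 →
  (∀ (w : U → ZMod 3) (s : ZMod 3), ((∃ u, w u ≠ 0) ∨ s ≠ 0) →
    ∃ k, ∑ u, w u * B u k + s * g k ≠ 0) →
  |((univ.filter fun α : prs J → ZMod 3 => GdA3 A B (ext α) f g).card : ℝ) /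
      3 ^ (prs J).card - 4 / 3 * c9| ≤ 12 * (3 ^ Fintype.card U / 3 ^ Fintype.card J)

/-- SM/HAL: mean values with the two labels. -/
def S_HAL3 : Prop := ∃ C : ℝ, 1 ≤ C ∧ ∀ (A B : Ei) (t s : ZMod 3), PS A → PS B →
  (A ≠ B ∨ t ≠ 0 ∨ s ≠ 0) →
  ∀ T : ℕ, ∑ n ∈ SB T, mf (fun π => (1 + 2 * (xab A B π * ez (t * nq π + s * mq π)).re) / 3) n ≤
    C * (lg (nrm A * nrm B)) ^ (1 / 3 : ℝ) * (T * (lg T) ^ (-(1 / 3) : ℝ))

/-- SM/BAD: few sets have degenerate labels. -/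
def S_BAD3 : Prop := ∀ ε : ℝ, 0 < ε → ∃ X₀ : ℕ, ∀ X : ℕ, X₀ ≤ X →
  (((SG X).filter fun S => S.card ≤ kk X ∧ ¬ Nd3 (sm (zz X) S) (la (zz X) S)).card : ℝ) ≤ ε * X

/-- SM/BOX: the count in a box on which the two labels are constant. -/
def S_BOX3 : Prop := ∀ (i : ZMod 3 × ZMod 3) (ι : Type) [Fintype ι] [LinearOrder ι]
  (C : ι → Finset Ei) (X : ι → ℕ) (κ : ℝ) (M S₀ : Finset Ei), M ⊆ S₀ → 0 ≤ κ →
  (∀ i, (C i).card ≤ X i) → HB C X κ → (∀ u ∈ S₀, Pq u) → (∀ i, ∀ π ∈ C i, Pq π ∧ π ∉ S₀) →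
  (∀ i l, i ≠ l → Disjoint (C i) (C l)) →
  (∀ i, ∀ π ∈ C i, ∀ ρ ∈ C i, nq π = nq ρ ∧ mq π = mq ρ) →
  S₀.card + 2 < Fintype.card ι →
  |(((Fintype.piFinset C).filter fun p => Nd3 S₀ (univ.image p) ∧ Nz i M (S₀ ∪ univ.image p) ∧
      Gd3 i M (S₀ ∪ univ.image p)).card : ℝ) -
      4 / 3 * c9 * (((Fintype.piFinset C).filter fun p => Nd3 S₀ (univ.image p) ∧
        Nz i M (S₀ ∪ univ.image p)).card : ℝ)| ≤
    36 * (3 ^ S₀.card / 3 ^ Fintype.card ι) *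
      (((Fintype.piFinset C).filter fun p => Nd3 S₀ (univ.image p) ∧
        Nz i M (S₀ ∪ univ.image p)).card : ℝ) +
    3 ^ (S₀.card * Fintype.card ι + (prs ι).card) * (κ * ∏ j, (X j : ℝ))

/-- SM/KEY: the sum over the boxes. -/
def S_KEY3 : Prop := S_BOX3 → ∀ i : ZMod 3 × ZMod 3, ∃ C : ℝ, 1 ≤ C ∧
  ∀ (M : Finset Ei) (X z H k V N : ℕ) (κ : ℝ), (∀ q ∈ M, nrm q ≤ z) → 1 ≤ X → 1 ≤ H → 1 ≤ z →
  2 ≤ V → 0 ≤ κ → C ≤ κ ^ 24 * z → (H : ℝ) * Real.log X < N →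
  |(((RRU M X z H k V).filter fun S => Nd3 (sm z S) (la z S) ∧ Nz i M S ∧ Gd3 i M S).card : ℝ) -
      4 / 3 * c9 * (((RRU M X z H k V).filter fun S =>
        Nd3 (sm z S) (la z S) ∧ Nz i M S).card : ℝ)| ≤
    36 * (1 / 3 : ℝ) ^ V * ((RRU M X z H k V).card : ℝ) +
    (9 * N + 9 : ℝ) ^ k * (3 ^ (9 * k ^ 2 + 9) * κ) * (X * (1 + Real.log X))

/-- the asymptotics for a fixed `M` -/
def AsyM (i : ZMod 3 × ZMod 3) : Prop := ∀ (M : Finset Ei) (ε : ℝ), 0 < ε → ∃ X₀ : ℕ, ∀ X : ℕ, X₀ ≤ X →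
  |(((SU M X).filter fun S => Nz i M S ∧ Gd3 i M S).card : ℝ) -
    4 / 3 * c9 * (((SU M X).filter (Nz i M)).card : ℝ)| ≤ ε * X

/-- SM/ASY: the asymptotics for one `M`. -/
def S_ASY3 : Prop := S_BAD3 → S_KEY3 → S_BOX3 → ∀ i : ZMod 3 × ZMod 3, AsyM i

/-- SM/NZ: the meaning of `Nz`. -/
def S_NZ3 : Prop := (∀ M S : Finset Ei, ClU M S → (Nz 0 M S ↔ ¬ (9 : Ei) ∣ el M S - 1)) ∧
  ∀ a b : Ei, (3 : Ei) ∣ a - 1 → (3 : Ei) ∣ b - 1 → mq (a * b) = mq a + mq b ∧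
    ((nq a = 0 ∧ mq a = 0) ↔ (9 : Ei) ∣ a - 1)

/-- SM/DEN: one ninth of the cube-free primary elements are `1` modulo `9`. -/
def S_DEN9 : Prop :=
  Filter.Tendsto (fun X : ℕ => ({D : Ei | nr D ≤ X ∧ ClP D ∧ (9 : Ei) ∣ D - 1}.ncard : ℝ) /
    ({D : Ei | nr D ≤ X ∧ ClP D}.ncard : ℝ)) Filter.atTop (nhds (1 / 9))

/-- SM/TOT: the proportion among the cube-free primary elements. -/
def S_TOT3 : Prop := ∀ i : ZMod 3 × ZMod 3, AsyM i → ∀ (T Z : Ei → Prop) (ζ : ℝ),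
  (∀ M S : Finset Ei, ClU M S → (T (el M S) ↔ Nz i M S ∧ Gd3 i M S)) →
  (∀ M S : Finset Ei, ClU M S → (Z (el M S) ↔ Nz i M S)) →
  Filter.Tendsto (fun X : ℕ => ({D : Ei | nr D ≤ X ∧ ClP D ∧ Z D}.ncard : ℝ) /
    ({D : Ei | nr D ≤ X ∧ ClP D}.ncard : ℝ)) Filter.atTop (nhds ζ) →
  Filter.Tendsto (fun X : ℕ => ({D : Ei | nr D ≤ X ∧ ClP D ∧ T D}.ncard : ℝ) /
    ({D : Ei | nr D ≤ X ∧ ClP D}.ncard : ℝ)) Filter.atTop (nhds (4 / 3 * c9 * ζ))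

/-- SM/SUP: the supplementary law of the cubic reciprocity for `λ = 1 + 2 ω`. -/
def S_SUP : Prop := ∀ π : Ei, Pq π → cs π ⟨1, 2⟩ = - mq π

/-- SM/CNT: the number of the cube-free primary elements. -/
def S_CNT : Prop := ∃ c : ℝ, 0 < c ∧ Filter.Tendsto
  (fun X : ℕ => ({D : Ei | nr D ≤ X ∧ ClP D}.ncard : ℝ) / X) Filter.atTop (nhds c)

/-- SM/ALL: from the cube-free primary elements to all cube-free elements
`± ω ^ i λ ^ k D`. -/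
def S_ALL : Prop := S_CNT → ∀ (T : Ei → Prop) (ζ : ZMod 3 → Fin 3 → ℝ), (∀ D, T (-D) ↔ T D) →
  (∀ (i : ZMod 3) (k : Fin 3), Filter.Tendsto (fun X : ℕ =>
    ({D : Ei | nr D ≤ X ∧ ClP D ∧ T (w ^ i.val * ⟨1, 2⟩ ^ (k : ℕ) * D)}.ncard : ℝ) /
      ({D : Ei | nr D ≤ X ∧ ClP D}.ncard : ℝ)) Filter.atTop (nhds (ζ i k))) →
  Filter.Tendsto (fun X : ℕ =>
    ({D : Ei | nr D ≤ X ∧ (∀ x : Ei, x ^ 3 ∣ D → IsUnit x) ∧ T D}.ncard : ℝ) /
      ({D : Ei | nr D ≤ X ∧ ∀ x : Ei, x ^ 3 ∣ D → IsUnit x}.ncard : ℝ)) Filter.atTop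
    (nhds ((∑ i, ∑ k : Fin 3, ζ i k / 3 ^ (k : ℕ)) / (13 / 3)))

end Pool.Agent.N848.SM
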