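import Pool.Agent.N848.SM.Stm
import Pool.Agent.R419.KF.Box

/-!
# Project SM: the count in a box with the labels at three (helper78, for helper848)

This is the file `N78/SM/Box3.lean` of helper78 with the pair index. Adapted from the file `N883/FF/Box.lean` of helper364 (which is adapted from the files
`R419/KF/Box.lean` of helper419 and `Y688/XK/BOX.lean` of helper688).
-/

set_option autoImplicit false

open scoped Classical

namespace Pool.Agent.N848.SM.Bx

open Finset
open Pool.Agent.Y692.QS (Ei)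
open Pool.Agent.Y715.T.Rec (cs)
open Pool.Agent.Y715.T.RecG (Pq)
open Pool.Agent.Y703.XK (prs HB S_EQ c9)
open Pool.Agent.Y688.XK (lb cs_symm sum_un ext_sum HB_sub ez0 ez0_coe)
open Pool.Agent.R419.KF (wt wt_one wt_ne)
open Pool.Agent.N883.FF (nq)
open Pool.Agent.N848.SM (mq Gd3 Nz Nd3 GdA3 S_LA3 S_BOX3)

/-- the good labels -/
def LN3 {ι : Type} (S₀ : Finset Ei) (β : ι → S₀ → ZMod 3) (γ μ : ι → ZMod 3) : Prop :=
  ∀ (w : S₀ → ZMod 3) (t s : ZMod 3), ((∃ u, w u ≠ 0) ∨ t ≠ 0 ∨ s ≠ 0) →
    ∃ i, ∑ u, w u * β i u + t * γ i + s * μ i ≠ 0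

/-- the matrix of the small primes and of `ω` -/
noncomputable def Am (a : Ei → ZMod 3) (M S₀ : Finset Ei) : Option S₀ → Option S₀ → ZMod 3
  | some u, some v => wt M u * wt M v * cs u v
  | none, some u => a u * wt M u
  | some u, none => a u * wt M u
  | none, none => 0

/-- the matrix of the labels -/
noncomputable def Bm {ι : Type} (M S₀ : Finset Ei) (β : ι → S₀ → ZMod 3)
    (γ : ι → ZMod 3) : Option S₀ → ι → ZMod 3
  | some u, l => wt M u * β l u
  | none, l => γ l

/-- the condition for two labels -/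
def GdL (a b : Ei → ZMod 3) (M S : Finset Ei) : Prop :=
  ∀ v : Ei → ZMod 3,
    (∀ π ∈ S, ∑ ρ ∈ S, wt M ρ * cs π ρ * (v ρ - v π) = a π * v π) →
    ∑ π ∈ S, wt M π * a π * v π = 0 → ∑ π ∈ S, wt M π * b π * v π = 0 → ∀ π ∈ S, v π = 0

/-- the sums of the labels for a linear combination -/
theorem lin_sum (x y : ZMod 3) (M S : Finset Ei) (v : Ei → ZMod 3) :
    ∑ π ∈ S, wt M π * (x * nq π + y * mq π) * v π =
      x * ∑ π ∈ S, wt M π * nq π * v π + y * ∑ π ∈ S, wt M π * mq π * v π := by
  rw [Finset.mul_sum, Finset.mul_sum, ← Finset.sum_add_distrib]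
  exact Finset.sum_congr rfl fun π _ => by ring

/-- a change of the labels -/
theorem gdL_iff {i : ZMod 3 × ZMod 3} {x y : ZMod 3} (hdet : i.1 * y - i.2 * x ≠ 0)
    (M S : Finset Ei) : Gd3 i M S ↔
      GdL (fun π => i.1 * nq π + i.2 * mq π) (fun π => x * nq π + y * mq π) M S := by
  unfold Gd3 GdL
  constructor
  · intro h v h1 h2 h3
    rw [lin_sum] at h2 h3
    have e1 : (i.1 * y - i.2 * x) * ∑ π ∈ S, wt M π * nq π * v π = 0 := by
      linear_combination y * h2 - i.2 * h3
    have e2 : (i.1 * y - i.2 * x) * ∑ π ∈ S, wt M π * mq π * v π = 0 := by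
      linear_combination i.1 * h3 - x * h2
    exact h v h1 ((mul_eq_zero.1 e1).resolve_left hdet) ((mul_eq_zero.1 e2).resolve_left hdet)
  · intro h v h1 h2 h3
    refine h v h1 ?_ ?_
    · rw [lin_sum, h2, h3, mul_zero, mul_zero, add_zero]
    · rw [lin_sum, h2, h3, mul_zero, mul_zero, add_zero]

/-- the complementary label -/
theorem exists_det {i : ZMod 3 × ZMod 3} (hi : i ≠ 0) :
    ∃ x y : ZMod 3, i.1 * y - i.2 * x ≠ 0 := by
  by_cases h : i.1 = 0
  · refine ⟨1, 0, ?_⟩
    have h2 : i.2 ≠ 0 := fun h2 => hi (Prod.ext h h2)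
    rw [mul_zero, mul_one, zero_sub]
    exact neg_ne_zero.2 h2
  · refine ⟨0, 1, ?_⟩
    rw [mul_zero, mul_one, sub_zero]
    exact h

/-- the first sum of the labels -/
noncomputable def HH {ι : Type} [Fintype ι] (M S₀ : Finset Ei) (γ : ι → ZMod 3) : ZMod 3 :=
  ∑ u : S₀, wt M u * nq u + ∑ l, γ l

/-- the second sum of the labels -/
noncomputable def MM {ι : Type} [Fintype ι] (M S₀ : Finset Ei) (μ : ι → ZMod 3) : ZMod 3 :=
  ∑ u : S₀, wt M u * mq u + ∑ l, μ l

/-- the sum of the labels for a general label -/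
noncomputable def NN {ι : Type} [Fintype ι] (b : Ei → ZMod 3) (M S₀ : Finset Ei)
    (μ : ι → ZMod 3) : ZMod 3 :=
  ∑ u : S₀, wt M u * b u + ∑ l, μ l

/-- the functional for `i ≠ 0` -/
noncomputable def fS {ι : Type} [Fintype ι] (b : Ei → ZMod 3) (M S₀ : Finset Ei)
    (μ : ι → ZMod 3) : Option S₀ → ZMod 3
  | some u => wt M u * b u
  | none => -NN b M S₀ μ

section one
variable {ι : Type} [Fintype ι] [LinearOrder ι] {i : ZMod 3 × ZMod 3} {M S₀ : Finset Ei} {p : ι → Ei}
  {a b : Ei → ZMod 3}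

omit [LinearOrder ι] in
theorem nd_iff : Nd3 S₀ (univ.image p) ↔
    LN3 S₀ (fun k => lb S₀ (p k)) (fun k => nq (p k)) (fun k => mq (p k)) := by
  unfold Nd3 LN3
  constructor
  · intro h w t s hw
    obtain ⟨x, hx, hx2⟩ := h (ez0 w) t s (by
      rcases hw with ⟨u, hu⟩ | ht
      · exact Or.inl ⟨u, u.2, by rw [ez0_coe]; exact hu⟩
      · exact Or.inr ht)
    rw [Finset.mem_image] at hx
    obtain ⟨k, -, rfl⟩ := hx
    refine ⟨k, ?_⟩
    rw [← Finset.sum_coe_sort S₀] at hx2
    intro h0
    apply hx2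
    rw [← h0]
    congr 2
    refine Finset.sum_congr rfl fun u _ => ?_
    rw [ez0_coe]
    rfl
  · intro h w t s hw
    obtain ⟨k, hk⟩ := h (fun u => w u) t s (by
      rcases hw with ⟨u, hu0, hu⟩ | ht
      · exact Or.inl ⟨⟨u, hu0⟩, hu⟩
      · exact Or.inr ht)
    refine ⟨p k, Finset.mem_image_of_mem _ (Finset.mem_univ _), ?_⟩
    rw [← Finset.sum_coe_sort S₀]
    exact hk

omit [LinearOrder ι] in
/-- weighted sums over the union -/
theorem wsum (hM : M ⊆ S₀) (hp : Function.Injective p) (hd : ∀ k, p k ∉ S₀) (a v : Ei → ZMod 3) :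
    ∑ x ∈ S₀ ∪ univ.image p, wt M x * a x * v x =
      ∑ u : S₀, wt M u * a u * v u + ∑ l, a (p l) * v (p l) := by
  have hw : ∀ k, wt M (p k) = 1 := fun k => wt_one fun h => hd k (hM h)
  rw [sum_un hp hd]
  simp only [hw, one_mul]

omit [LinearOrder ι] in
theorem row_u (c : Option S₀ → ZMod 3) (d : ι → ZMod 3) (u : S₀) :
    (∑ v, Am a M S₀ (some u) v * (c v - c (some u)) +
      ∑ l, Bm M S₀ (fun k => lb S₀ (p k)) (fun k => a (p k)) (some u) l * (d l - c (some u))) =
    wt M u * (∑ v : S₀, wt M v * cs u v * (c (some v) - c (some u)) +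
      ∑ l, cs u (p l) * (d l - c (some u)) - a u * (c (some u) - c none)) := by
  rw [Fintype.sum_option]
  have e1 : ∑ v : S₀, Am a M S₀ (some u) (some v) * (c (some v) - c (some u)) =
      wt M u * ∑ v : S₀, wt M v * cs u v * (c (some v) - c (some u)) := by
    rw [Finset.mul_sum]
    refine Finset.sum_congr rfl fun v _ => ?_
    show wt M u * wt M v * cs u v * (c (some v) - c (some u)) = _
    ring
  have e2 : ∑ l, Bm M S₀ (fun k => lb S₀ (p k)) (fun k => a (p k)) (some u) l *
      (d l - c (some u)) = wt M u * ∑ l, cs u (p l) * (d l - c (some u)) := by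
    rw [Finset.mul_sum]
    refine Finset.sum_congr rfl fun l _ => ?_
    show wt M u * cs u (p l) * (d l - c (some u)) = _
    ring
  have e3 : Am a M S₀ (some u) none = a u * wt M u := rfl
  rw [e1, e2, e3]
  ring

omit [LinearOrder ι] in
theorem row_n (c : Option S₀ → ZMod 3) (d : ι → ZMod 3) :
    (∑ v, Am a M S₀ none v * (c v - c none) +
      ∑ l, Bm M S₀ (fun k => lb S₀ (p k)) (fun k => a (p k)) none l * (d l - c none)) =
    ∑ v : S₀, wt M v * a v * (c (some v) - c none) + ∑ l, a (p l) * (d l - c none) := by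
  rw [Fintype.sum_option]
  have e1 : Am a M S₀ none none = 0 := rfl
  rw [e1, zero_mul, zero_add]
  congr 1
  refine Finset.sum_congr rfl fun v _ => ?_
  show a v * wt M v * (c (some v) - c none) = _
  ring

theorem row_k (hpr : ∀ k, Pq (p k)) (hS₀ : ∀ u ∈ S₀, Pq u) (c : Option S₀ → ZMod 3)
    (d : ι → ZMod 3) (k : ι) :
    (∑ u, Bm M S₀ (fun k => lb S₀ (p k)) (fun k => a (p k)) u k * (c u - d k) +
      ∑ l, Pool.Agent.Y703.XK.ext (fun e : prs ι => cs (p e.1.1) (p e.1.2)) k l *
        (d l - d k)) =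
    ∑ u : S₀, wt M u * cs (p k) u * (c (some u) - d k) + ∑ l, cs (p k) (p l) * (d l - d k) -
      a (p k) * (d k - c none) := by
  rw [Fintype.sum_option, ext_sum hpr k d]
  have e1 : Bm M S₀ (fun k => lb S₀ (p k)) (fun k => a (p k)) none k = a (p k) := rfl
  have e2 : ∑ u : S₀, Bm M S₀ (fun k => lb S₀ (p k)) (fun k => a (p k)) (some u) k *
      (c (some u) - d k) = ∑ u : S₀, wt M u * cs (p k) u * (c (some u) - d k) := by
    refine Finset.sum_congr rfl fun u _ => ?_
    show wt M u * cs u (p k) * (c (some u) - d k) = _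
    rw [cs_symm (hpr k) (hS₀ u u.2)]
  rw [e1, e2]
  ring

omit [LinearOrder ι] in
theorem fun_eq (μ : ι → ZMod 3) (c : Option S₀ → ZMod 3) (d : ι → ZMod 3) :
    ∑ o, fS b M S₀ μ o * c o + ∑ l, μ l * d l =
      ∑ u : S₀, wt M u * b u * (c (some u) - c none) + ∑ l, μ l * (d l - c none) := by
  rw [Fintype.sum_option]
  have e1 : fS b M S₀ μ none = -NN b M S₀ μ := rfl
  have e2 : ∑ u : S₀, fS b M S₀ μ (some u) * c (some u) =
      ∑ u : S₀, wt M u * b u * c (some u) := rfl
  rw [e1, e2]
  unfold NN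
  simp only [mul_sub, Finset.sum_sub_distrib, ← Finset.sum_mul]
  ring

theorem gd_iff (hM : M ⊆ S₀) (hp : Function.Injective p) (hpr : ∀ k, Pq (p k))
    (hS₀ : ∀ u ∈ S₀, Pq u) (hd : ∀ k, p k ∉ S₀) :
    GdL a b M (S₀ ∪ univ.image p) ↔ GdA3 (Am a M S₀)
      (Bm M S₀ (fun k => lb S₀ (p k)) (fun k => a (p k)))
      (Pool.Agent.Y703.XK.ext fun e : prs ι => cs (p e.1.1) (p e.1.2))
      (fS b M S₀ (fun k => b (p k))) (fun k => b (p k)) := by
  have hw : ∀ k, wt M (p k) = 1 := fun k => wt_one fun h => hd k (hM h)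
  unfold GdL GdA3
  constructor
  · intro h c d h1 h2 h0
    obtain ⟨c', hc'⟩ : ∃ c' : Ei → ZMod 3, ∀ n, c' n = if h : n ∈ S₀ then c (some ⟨n, h⟩) - c none
      else if h : ∃ l, p l = n then d h.choose - c none else 0 := ⟨_, fun n => rfl⟩
    have e1 : ∀ u : S₀, c' u = c (some u) - c none := by
      intro u
      rw [hc', dif_pos u.2]
    have e2 : ∀ l, c' (p l) = d l - c none := by
      intro l
      have hex : ∃ l', p l' = p l := ⟨l, rfl⟩
      rw [hc', dif_neg (hd l), dif_pos hex]
      exact congrArg (fun l => d l - c none) (hp hex.choose_spec)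
    have h3 := h c' (by
      intro x hx
      rw [sum_un hp hd]
      simp only [hw, one_mul, e1, e2]
      rw [Finset.mem_union, Finset.mem_image] at hx
      rcases hx with hx | ⟨k, -, rfl⟩
      · have h4 := h1 (some ⟨x, hx⟩)
        rw [row_u] at h4
        have h5 := (mul_eq_zero.1 h4).resolve_left (wt_ne M _)
        have h6 : c' x = c (some ⟨x, hx⟩) - c none := e1 ⟨x, hx⟩
        rw [h6]
        rw [← sub_eq_zero, ← h5]
        simp only [sub_sub_sub_cancel_right]
      · have h4 := h2 k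
        rw [row_k hpr hS₀] at h4
        rw [e2 k, ← sub_eq_zero, ← h4]
        simp only [sub_sub_sub_cancel_right]) (by
      rw [wsum hM hp hd]
      simp only [e1, e2]
      have h4 := h1 none
      rw [row_n] at h4
      exact h4) (by
      rw [wsum hM hp hd]
      simp only [e1, e2]
      rw [fun_eq] at h0
      exact h0)
    refine ⟨c none, fun u => ?_, fun l => ?_⟩
    · cases u with
      | none => rfl
      | some u =>
        have h4 := h3 u (Finset.mem_union_left _ u.2)
        rw [e1] at h4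
        exact sub_eq_zero.1 h4
    · have h4 := h3 (p l) (Finset.mem_union_right _ (Finset.mem_image_of_mem _ (Finset.mem_univ _)))
      rw [e2] at h4
      exact sub_eq_zero.1 h4
  · intro h v hv hn hm
    obtain ⟨c, hc⟩ : ∃ c : Option S₀ → ZMod 3, c none = 0 ∧ ∀ u : S₀, c (some u) = v u :=
      ⟨fun o => o.elim 0 fun u => v u, rfl, fun u => rfl⟩
    obtain ⟨hc0, hc1⟩ := hc
    obtain ⟨t, ht1, ht2⟩ := h c (fun l => v (p l)) (by
      intro u
      cases u with
      | none =>
        rw [row_n]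
        simp only [hc0, hc1, sub_zero]
        rw [wsum hM hp hd] at hn
        exact hn
      | some u =>
        rw [row_u]
        simp only [hc0, hc1, sub_zero]
        have h2 := hv u (Finset.mem_union_left _ u.2)
        rw [sum_un hp hd] at h2
        simp only [hw, one_mul] at h2
        rw [h2, sub_self, mul_zero]) (by
      intro k
      refine (row_k hpr hS₀ c (fun l => v (p l)) k).trans ?_
      simp only [hc0, hc1, sub_zero]
      have h2 := hv (p k) (Finset.mem_union_right _ (Finset.mem_image_of_mem _ (Finset.mem_univ _)))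
      rw [sum_un hp hd] at h2
      simp only [hw, one_mul] at h2
      rw [h2, sub_self]) (by
      rw [fun_eq]
      simp only [hc0, hc1, sub_zero]
      rw [wsum hM hp hd] at hm
      exact hm)
    have ht : t = 0 := by rw [← ht1 none, hc0]
    intro x hx
    rw [Finset.mem_union, Finset.mem_image] at hx
    rcases hx with hx | ⟨k, -, rfl⟩
    · have := ht1 (some ⟨x, hx⟩)
      rw [hc1, ht] at this
      exact this
    · have := ht2 k
      rw [ht] at this
      exact this

/-! ### the case `i = 0` -/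

theorem sol_iff (hM : M ⊆ S₀) (hp : Function.Injective p) (hpr : ∀ k, Pq (p k))
    (hS₀ : ∀ u ∈ S₀, Pq u) (hd : ∀ k, p k ∉ S₀) (c : Ei → ZMod 3) :
    (∀ π ∈ S₀ ∪ univ.image p, ∑ ρ ∈ S₀ ∪ univ.image p, wt M ρ * cs π ρ * (c ρ - c π) = 0) ↔
      (∀ u : S₀, ∑ v : S₀, wt M u * wt M v * cs u v * (c v - c u) +
        ∑ l, wt M u * cs u (p l) * (c (p l) - c u) = 0) ∧
      (∀ k : ι, ∑ u : S₀, wt M u * cs u (p k) * (c u - c (p k)) +
        ∑ l, Pool.Agent.Y703.XK.ext (fun e : prs ι => cs (p e.1.1) (p e.1.2)) k l *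
          (c (p l) - c (p k)) = 0) := by
  have hw : ∀ k, wt M (p k) = 1 := fun k => wt_one fun h => hd k (hM h)
  have hsym : ∀ k : ι, ∑ u : S₀, wt M u * cs (p k) u * (c u - c (p k)) =
      ∑ u : S₀, wt M u * cs u (p k) * (c u - c (p k)) := by
    intro k
    refine Finset.sum_congr rfl fun u _ => ?_
    rw [cs_symm (hpr k) (hS₀ u u.2)]
  have hrow : ∀ u : S₀, (∑ v : S₀, wt M u * wt M v * cs u v * (c v - c u) +
      ∑ l, wt M u * cs u (p l) * (c (p l) - c u)) = wt M u * (∑ v : S₀, wt M v * cs u v *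
        (c v - c u) + ∑ l, cs u (p l) * (c (p l) - c u)) := by
    intro u
    rw [mul_add, Finset.mul_sum, Finset.mul_sum]
    congr 1
    · exact Finset.sum_congr rfl fun v _ => by ring
    · exact Finset.sum_congr rfl fun l _ => by ring
  constructor
  · intro h
    refine ⟨fun u => ?_, fun k => ?_⟩
    · have := h u (Finset.mem_union_left _ u.2)
      rw [sum_un hp hd] at this
      simp only [hw, one_mul] at this
      rw [hrow, this, mul_zero]
    · have := h (p k) (Finset.mem_union_right _ (Finset.mem_image_of_mem _ (Finset.mem_univ _)))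
      rw [sum_un hp hd, hsym] at this
      simp only [hw, one_mul] at this
      rw [ext_sum hpr k (fun l => c (p l))]
      exact this
  · rintro ⟨h1, h2⟩ x hx
    rw [sum_un hp hd]
    simp only [hw, one_mul]
    rw [Finset.mem_union, Finset.mem_image] at hx
    rcases hx with hx | ⟨k, -, rfl⟩
    · have h3 := h1 ⟨x, hx⟩
      rw [hrow] at h3
      exact (mul_eq_zero.1 h3).resolve_left (wt_ne M _)
    · have := h2 k
      rw [ext_sum hpr k (fun l => c (p l))] at this
      rw [hsym]
      exact this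

omit [LinearOrder ι] in
theorem fun0 (H N' : ZMod 3) (c : S₀ → ZMod 3) (d : ι → ZMod 3) :
    ∑ u : S₀, (N' * (wt M u * nq u) - H * (wt M u * mq u)) * c u +
      ∑ l, (N' * nq (p l) - H * mq (p l)) * d l =
    N' * (∑ u : S₀, wt M u * nq u * c u + ∑ l, nq (p l) * d l) -
      H * (∑ u : S₀, wt M u * mq u * c u + ∑ l, mq (p l) * d l) := by
  simp only [sub_mul, Finset.sum_sub_distrib, mul_add, Finset.mul_sum]
  have e1 : ∀ (a : ZMod 3) (b : S₀ → ZMod 3), ∑ u : S₀, a * (wt M u * b u) * c u =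
      ∑ u : S₀, a * (wt M u * b u * c u) :=
    fun a b => Finset.sum_congr rfl fun u _ => by ring
  have e2 : ∀ (a : ZMod 3) (b : ι → ZMod 3), ∑ l, a * b l * d l = ∑ l, a * (b l * d l) :=
    fun a b => Finset.sum_congr rfl fun l _ => by ring
  rw [e1 N' (fun u => nq u), e1 H (fun u => mq u), e2 N' (fun l => nq (p l)),
    e2 H (fun l => mq (p l))]
  ring

theorem gd0_iff (hM : M ⊆ S₀) (hp : Function.Injective p) (hpr : ∀ k, Pq (p k))
    (hS₀ : ∀ u ∈ S₀, Pq u) (hd : ∀ k, p k ∉ S₀) {H N' : ZMod 3}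
    (hH : H = HH M S₀ (fun k => nq (p k))) (hN : N' = MM M S₀ (fun k => mq (p k)))
    (hne : H ≠ 0 ∨ N' ≠ 0) :
    Gd3 0 M (S₀ ∪ univ.image p) ↔ GdA3 (fun u v : S₀ => wt M u * wt M v * cs u v)
      (fun (u : S₀) l => wt M u * lb S₀ (p l) u)
      (Pool.Agent.Y703.XK.ext fun e : prs ι => cs (p e.1.1) (p e.1.2))
      (fun u : S₀ => N' * (wt M u * nq u) - H * (wt M u * mq u))
      (fun l => N' * nq (p l) - H * mq (p l)) := by
  have hsol := sol_iff hM hp hpr hS₀ hd
  have hconst : ∀ (a : Ei → ZMod 3) (v : Ei → ZMod 3) (t : ZMod 3),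
      ∑ u : S₀, wt M u * a u * (v u - t) + ∑ l, a (p l) * (v (p l) - t) =
      (∑ u : S₀, wt M u * a u * v u + ∑ l, a (p l) * v (p l)) -
        t * (∑ u : S₀, wt M u * a u + ∑ l, a (p l)) := by
    intro a v t
    simp only [mul_sub, Finset.sum_sub_distrib, mul_add, Finset.mul_sum]
    have e1 : ∑ u : S₀, wt M u * a u * t = ∑ u : S₀, t * (wt M u * a u) :=
      Finset.sum_congr rfl fun u _ => by ring
    have e2 : ∑ l, a (p l) * t = ∑ l, t * a (p l) := Finset.sum_congr rfl fun u _ => by ring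
    rw [e1, e2]
    ring
  unfold Gd3 GdA3
  constructor
  · intro h c d h1 h2 h0
    obtain ⟨c', hc'⟩ : ∃ c' : Ei → ZMod 3, ∀ n, c' n = if h : n ∈ S₀ then c ⟨n, h⟩ else
      if h : ∃ l, p l = n then d h.choose else 0 := ⟨_, fun n => rfl⟩
    have e1 : ∀ u : S₀, c' u = c u := by
      intro u
      rw [hc', dif_pos u.2]
    have e2 : ∀ l, c' (p l) = d l := by
      intro l
      have hex : ∃ l', p l' = p l := ⟨l, rfl⟩
      rw [hc', dif_neg (hd l), dif_pos hex]
      exact congrArg d (hp hex.choose_spec)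
    have hs := (hsol c').2 ⟨fun u => by
        simp only [e1, e2]
        exact h1 u, fun k => by
        simp only [e1, e2]
        exact h2 k⟩
    rw [fun0] at h0
    obtain ⟨a, ha⟩ : ∃ a : ZMod 3, a = ∑ u : S₀, wt M u * nq u * c u + ∑ l, nq (p l) * d l :=
      ⟨_, rfl⟩
    obtain ⟨b, hb⟩ : ∃ b : ZMod 3, b = ∑ u : S₀, wt M u * mq u * c u + ∑ l, mq (p l) * d l :=
      ⟨_, rfl⟩
    rw [← ha, ← hb] at h0
    obtain ⟨t, ht1, ht2⟩ : ∃ t : ZMod 3, a = t * H ∧ b = t * N' := by
      rcases hne with hH0 | hN0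
      · refine ⟨a / H, ?_, ?_⟩
        · field_simp
        · field_simp
          linear_combination -h0
      · refine ⟨b / N', ?_, ?_⟩
        · field_simp
          linear_combination h0
        · field_simp
    have h3 := h (fun x => c' x - t) (by
      intro x hx
      simp only [sub_sub_sub_cancel_right, Prod.fst_zero, Prod.snd_zero, zero_mul, add_zero]
      exact hs x hx) (by
      rw [wsum hM hp hd, hconst nq c' t]
      simp only [e1, e2]
      rw [← ha, ht1, hH]
      unfold HH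
      ring) (by
      rw [wsum hM hp hd, hconst mq c' t]
      simp only [e1, e2]
      rw [← hb, ht2, hN]
      unfold MM
      ring)
    refine ⟨t, fun u => ?_, fun l => ?_⟩
    · rw [← e1]
      exact sub_eq_zero.1 (h3 _ (Finset.mem_union_left _ u.2))
    · rw [← e2]
      exact sub_eq_zero.1 (h3 _ (Finset.mem_union_right _
        (Finset.mem_image_of_mem _ (Finset.mem_univ _))))
  · intro h v hv hn hm
    have hv' : ∀ π ∈ S₀ ∪ univ.image p,
        ∑ ρ ∈ S₀ ∪ univ.image p, wt M ρ * cs π ρ * (v ρ - v π) = 0 := by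
      intro x hx
      have := hv x hx
      simpa only [Prod.fst_zero, Prod.snd_zero, zero_mul, add_zero] using this
    rw [hsol] at hv'
    rw [wsum hM hp hd] at hn hm
    obtain ⟨t, ht1, ht2⟩ := h (fun u => v u) (fun l => v (p l)) (fun u => hv'.1 u)
      (fun k => hv'.2 k) (by
        refine (fun0 H N' (fun u => v u) (fun l => v (p l))).trans ?_
        rw [hn, hm, mul_zero, mul_zero, sub_zero])
    have hn2 : t * H = 0 := by
      have h5 := hconst nq v t
      rw [hn] at h5
      simp only [show ∀ u : S₀, v u = t from ht1, show ∀ l, v (p l) = t from ht2, sub_self,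
        mul_zero, Finset.sum_const_zero, add_zero] at h5
      rw [hH]
      unfold HH
      linear_combination h5
    have hm2 : t * N' = 0 := by
      have h5 := hconst mq v t
      rw [hm] at h5
      simp only [show ∀ u : S₀, v u = t from ht1, show ∀ l, v (p l) = t from ht2, sub_self,
        mul_zero, Finset.sum_const_zero, add_zero] at h5
      rw [hN]
      unfold MM
      linear_combination h5
    have ht : t = 0 := by
      rcases hne with hH0 | hN0
      · exact (mul_eq_zero.1 hn2).resolve_right hH0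
      · exact (mul_eq_zero.1 hm2).resolve_right hN0
    intro x hx
    rw [Finset.mem_union, Finset.mem_image] at hx
    rcases hx with hx | ⟨k, -, rfl⟩
    · exact (ht1 ⟨x, hx⟩).trans ht
    · exact (ht2 k).trans ht

/-! ### the bound for given labels -/

theorem la_bound (hLA : S_LA3) (hS₀ : ∀ u ∈ S₀, Pq u) (hM : M ⊆ S₀) (β : ι → S₀ → ZMod 3)
    (γ μ : ι → ZMod 3) (hβ : LN3 S₀ β γ μ) (hcard : S₀.card + 2 < Fintype.card ι)
    (hNZ : i ≠ 0 ∨ HH M S₀ γ ≠ 0 ∨ MM M S₀ μ ≠ 0) :
    ∃ Q : (prs ι → ZMod 3) → Prop,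
      |((univ.filter Q).card : ℝ) / 3 ^ (prs ι).card - 4 / 3 * c9| ≤
        36 * (3 ^ S₀.card / 3 ^ Fintype.card ι) ∧
      ∀ p : ι → Ei, Function.Injective p → (∀ k, Pq (p k)) → (∀ k, p k ∉ S₀) →
        (fun k => lb S₀ (p k)) = β → (fun k => nq (p k)) = γ → (fun k => mq (p k)) = μ →
        (Gd3 i M (S₀ ∪ univ.image p) ↔ Q fun e => cs (p e.1.1) (p e.1.2)) := by
  by_cases hi : i = 0
  · subst hi
    have hne : HH M S₀ γ ≠ 0 ∨ MM M S₀ μ ≠ 0 := hNZ.resolve_left fun h => h rfl
    refine ⟨fun α => GdA3 (fun u v : S₀ => wt M u * wt M v * cs u v)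
      (fun (u : S₀) l => wt M u * β l u) (Pool.Agent.Y703.XK.ext α)
      (fun u : S₀ => MM M S₀ μ * (wt M u * nq u) - HH M S₀ γ * (wt M u * mq u))
      (fun l => MM M S₀ μ * γ l - HH M S₀ γ * μ l), ?_, ?_⟩
    · have h2 := hLA S₀ ι (fun u v => wt M u * wt M v * cs u v) (fun u l => wt M u * β l u)
        (fun u : S₀ => MM M S₀ μ * (wt M u * nq u) - HH M S₀ γ * (wt M u * mq u))
        (fun l => MM M S₀ μ * γ l - HH M S₀ γ * μ l)
        (by rw [Fintype.card_coe]; omega)
        (fun u v => by rw [cs_symm (hS₀ u u.2) (hS₀ v v.2), mul_comm (wt M u) (wt M v)])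
        (by
          simp only [Finset.sum_sub_distrib, ← Finset.mul_sum]
          unfold HH MM
          ring)
        (fun w s hw => by
          obtain ⟨k, hk⟩ := hβ (fun u => w u * wt M u) (s * MM M S₀ μ) (-(s * HH M S₀ γ)) (by
            rcases hw with ⟨u, hu⟩ | hs
            · exact Or.inl ⟨u, mul_ne_zero hu (wt_ne M u)⟩
            · rcases hne with h | h
              · exact Or.inr (Or.inr (neg_ne_zero.2 (mul_ne_zero hs h)))
              · exact Or.inr (Or.inl (mul_ne_zero hs h)))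
          refine ⟨k, fun h0 => hk ?_⟩
          rw [← h0]
          have e1 : ∑ u : S₀, w u * wt M u * β k u = ∑ u : S₀, w u * (wt M u * β k u) :=
            Finset.sum_congr rfl fun u _ => mul_assoc _ _ _
          rw [e1]
          ring)
      rw [Fintype.card_coe] at h2
      refine h2.trans ?_
      exact mul_le_mul_of_nonneg_right (by norm_num) (by positivity)
    · intro p hp hpr hd h3 h4 h5
      rw [gd0_iff hM hp hpr hS₀ hd (H := HH M S₀ γ) (N' := MM M S₀ μ) (by rw [h4]) (by rw [h5])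
        hne]
      subst h3 h4 h5
      exact Iff.rfl
  · obtain ⟨x, y, hdet⟩ := exists_det hi
    set a : Ei → ZMod 3 := fun π => i.1 * nq π + i.2 * mq π with ha
    set b : Ei → ZMod 3 := fun π => x * nq π + y * mq π with hb
    set γ' : ι → ZMod 3 := fun l => i.1 * γ l + i.2 * μ l with hγ'
    set μ' : ι → ZMod 3 := fun l => x * γ l + y * μ l with hμ'
    refine ⟨fun α => GdA3 (Am a M S₀) (Bm M S₀ β γ') (Pool.Agent.Y703.XK.ext α)
      (fS b M S₀ μ') μ', ?_, ?_⟩
    · have h2 := hLA (Option S₀) ι (Am a M S₀) (Bm M S₀ β γ') (fS b M S₀ μ') μ'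
        (by rw [Fintype.card_option, Fintype.card_coe]; omega)
        (fun u v => by
          cases u with
          | none => cases v with
            | none => rfl
            | some v => rfl
          | some u => cases v with
            | none => rfl
            | some v =>
              show wt M u * wt M v * cs u v = wt M v * wt M u * cs v u
              rw [cs_symm (hS₀ u u.2) (hS₀ v v.2), mul_comm (wt M u) (wt M v)])
        (by
          rw [Fintype.sum_option]
          have e1 : fS b M S₀ μ' none = -NN b M S₀ μ' := rfl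
          have e2 : ∑ u : S₀, fS b M S₀ μ' (some u) = ∑ u : S₀, wt M u * b u := rfl
          rw [e1, e2]
          unfold NN
          ring)
        (fun w s hw => by
          obtain ⟨k, hk⟩ := hβ (fun u => w (some u) * wt M u) (w none * i.1 + s * x)
            (w none * i.2 + s * y) (by
            by_cases hu : ∃ u : S₀, w (some u) ≠ 0
            · obtain ⟨u, hu⟩ := hu
              exact Or.inl ⟨u, mul_ne_zero hu (wt_ne M u)⟩
            · right
              by_contra hcon
              push Not at hcon hu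
              obtain ⟨c1, c2⟩ := hcon
              have e1 : w none * (i.1 * y - i.2 * x) = 0 := by linear_combination y * c1 - x * c2
              have e2 : s * (i.1 * y - i.2 * x) = 0 := by linear_combination i.1 * c2 - i.2 * c1
              rcases hw with ⟨u, hu'⟩ | hs
              · cases u with
                | none => exact hu' ((mul_eq_zero.1 e1).resolve_right hdet)
                | some u => exact hu' (hu u)
              · exact hs ((mul_eq_zero.1 e2).resolve_right hdet))
          refine ⟨k, fun h0 => hk ?_⟩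
          rw [← h0, Fintype.sum_option]
          have e1 : w none * Bm M S₀ β γ' none k = w none * (i.1 * γ k + i.2 * μ k) := rfl
          have e2 : ∑ u : S₀, w (some u) * Bm M S₀ β γ' (some u) k =
              ∑ u : S₀, w (some u) * wt M u * β k u := by
            refine Finset.sum_congr rfl fun u _ => ?_
            show w (some u) * (wt M u * β k u) = _
            ring
          have e3 : μ' k = x * γ k + y * μ k := rfl
          rw [e1, e2, e3]
          ring)
      rw [Fintype.card_option, Fintype.card_coe] at h2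
      refine h2.trans (le_of_eq ?_)
      rw [pow_succ]
      ring
    · intro p hp hpr hd h3 h4 h5
      rw [gdL_iff hdet, gd_iff hM hp hpr hS₀ hd]
      subst h3 h4 h5
      exact Iff.rfl

end one

/-- **The count in a box.** -/
theorem t_BOX3 (hEQ : S_EQ) (hLA : S_LA3) : S_BOX3 := by
  intro i ι _ _ C X κ M S₀ hM hκ hCX hHB hS₀ hC hdis hnq hcard
  obtain ⟨cc, hcc⟩ : ∃ cc : ℝ, cc = 36 * (3 ^ S₀.card / 3 ^ Fintype.card ι) := ⟨_, rfl⟩
  obtain ⟨R, hR⟩ : ∃ R : ℝ, R = 3 ^ (prs ι).card * (κ * ∏ j, (X j : ℝ)) := ⟨_, rfl⟩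
  have hcc0 : 0 ≤ cc := by rw [hcc]; positivity
  have hR0 : 0 ≤ R := by
    rw [hR]
    exact mul_nonneg (by positivity)
      (mul_nonneg hκ (Finset.prod_nonneg fun j _ => by positivity))
  -- the labels at three
  obtain ⟨γ, hγ⟩ : ∃ γ : ι → ZMod 3, ∀ k, ∀ π ∈ C k, nq π = γ k :=
    ⟨fun k => if h : (C k).Nonempty then nq h.choose else 0, fun k π hπ => by
      have h : (C k).Nonempty := ⟨π, hπ⟩
      show nq π = if h : (C k).Nonempty then nq h.choose else 0
      rw [dif_pos h]
      exact (hnq k π hπ _ h.choose_spec).1⟩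
  obtain ⟨μ, hμ⟩ : ∃ μ : ι → ZMod 3, ∀ k, ∀ π ∈ C k, mq π = μ k :=
    ⟨fun k => if h : (C k).Nonempty then mq h.choose else 0, fun k π hπ => by
      have h : (C k).Nonempty := ⟨π, hπ⟩
      show mq π = if h : (C k).Nonempty then mq h.choose else 0
      rw [dif_pos h]
      exact (hnq k π hπ _ h.choose_spec).2⟩
  have hγp : ∀ p ∈ Fintype.piFinset C, (fun k => nq (p k)) = γ := by
    intro p hp
    rw [Fintype.mem_piFinset] at hp
    exact funext fun k => hγ k _ (hp k)
  have hμp : ∀ p ∈ Fintype.piFinset C, (fun k => mq (p k)) = μ := by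
    intro p hp
    rw [Fintype.mem_piFinset] at hp
    exact funext fun k => hμ k _ (hp k)
  -- facts on tuples
  have hinj : ∀ p ∈ Fintype.piFinset C, Function.Injective p := by
    intro p hp i j hij
    rw [Fintype.mem_piFinset] at hp
    by_contra hne
    have h1 := Finset.disjoint_left.1 (hdis i j hne) (hp i)
    rw [hij] at h1
    exact h1 (hp j)
  have hd : ∀ p ∈ Fintype.piFinset C, ∀ i, p i ∉ S₀ := by
    intro p hp i
    rw [Fintype.mem_piFinset] at hp
    exact (hC i _ (hp i)).2
  have hpr : ∀ p ∈ Fintype.piFinset C, ∀ i, Pq (p i) := by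
    intro p hp i
    rw [Fintype.mem_piFinset] at hp
    exact (hC i _ (hp i)).1
  -- the condition `Nz` is constant
  have hNzc : ∀ p ∈ Fintype.piFinset C, (Nz i M (S₀ ∪ univ.image p) ↔
      (i ≠ 0 ∨ HH M S₀ γ ≠ 0 ∨ MM M S₀ μ ≠ 0)) := by
    intro p hp
    unfold Nz
    have hs : ∀ a : Ei → ZMod 3, ∑ π ∈ S₀ ∪ univ.image p, wt M π * a π =
        ∑ u : S₀, wt M u * a u + ∑ l, a (p l) := by
      intro a
      have h := wsum hM (hinj p hp) (hd p hp) a (fun _ => 1)
      simp only [mul_one] at h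
      exact h
    rw [hs nq, hs mq]
    have e1 : ∑ l, nq (p l) = ∑ l, γ l := Finset.sum_congr rfl fun l _ => congrFun (hγp p hp) l
    have e2 : ∑ l, mq (p l) = ∑ l, μ l := Finset.sum_congr rfl fun l _ => congrFun (hμp p hp) l
    rw [e1, e2]
    exact Iff.rfl
  by_cases hNZ : i ≠ 0 ∨ HH M S₀ γ ≠ 0 ∨ MM M S₀ μ ≠ 0
  swap
  · have z1 : ((Fintype.piFinset C).filter fun p => Nd3 S₀ (univ.image p) ∧
        Nz i M (S₀ ∪ univ.image p) ∧ Gd3 i M (S₀ ∪ univ.image p)) = ∅ := by
      rw [Finset.filter_eq_empty_iff]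
      intro p hp h
      exact hNZ ((hNzc p hp).1 h.2.1)
    have z2 : ((Fintype.piFinset C).filter fun p => Nd3 S₀ (univ.image p) ∧
        Nz i M (S₀ ∪ univ.image p)) = ∅ := by
      rw [Finset.filter_eq_empty_iff]
      intro p hp h
      exact hNZ ((hNzc p hp).1 h.2)
    rw [z1, z2, Finset.card_empty, Nat.cast_zero, mul_zero, sub_zero, abs_zero, mul_zero, zero_add,
      pow_add, mul_assoc, ← hR]
    positivity
  have y1 : ((Fintype.piFinset C).filter fun p => Nd3 S₀ (univ.image p) ∧
      Nz i M (S₀ ∪ univ.image p) ∧ Gd3 i M (S₀ ∪ univ.image p)) =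
      ((Fintype.piFinset C).filter fun p => Nd3 S₀ (univ.image p) ∧
        Gd3 i M (S₀ ∪ univ.image p)) := by
    refine Finset.filter_congr fun p hp => ?_
    rw [hNzc p hp]
    constructor
    · rintro ⟨h1, -, h2⟩
      exact ⟨h1, h2⟩
    · rintro ⟨h1, h2⟩
      exact ⟨h1, hNZ, h2⟩
  have y2 : ((Fintype.piFinset C).filter fun p => Nd3 S₀ (univ.image p) ∧
      Nz i M (S₀ ∪ univ.image p)) =
      ((Fintype.piFinset C).filter fun p => Nd3 S₀ (univ.image p)) := by
    refine Finset.filter_congr fun p hp => ?_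
    rw [hNzc p hp]
    constructor
    · rintro ⟨h1, -⟩
      exact h1
    · intro h1
      exact ⟨h1, hNZ⟩
  rw [y1, y2]
  -- the part with given labels
  have h1 : ∀ β : ι → S₀ → ZMod 3, LN3 S₀ β γ μ →
      |(((Fintype.piFinset C).filter fun p => (fun i => lb S₀ (p i)) = β ∧
          Gd3 i M (S₀ ∪ univ.image p)).card : ℝ) -
        4 / 3 * c9 * (((Fintype.piFinset C).filter fun p => (fun i => lb S₀ (p i)) = β).card : ℝ)| ≤
      cc * (((Fintype.piFinset C).filter fun p => (fun i => lb S₀ (p i)) = β).card : ℝ) + R := by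
    intro β hβ
    obtain ⟨C', hC'⟩ : ∃ C' : ι → Finset Ei, C' = fun i => (C i).filter fun q => lb S₀ q = β i :=
      ⟨_, rfl⟩
    have hpi : (Fintype.piFinset C).filter (fun p => (fun i => lb S₀ (p i)) = β) =
        Fintype.piFinset C' := by
      ext p
      simp only [Finset.mem_filter, Fintype.mem_piFinset, hC']
      constructor
      · rintro ⟨h2, h3⟩ i
        exact ⟨h2 i, congrFun h3 i⟩
      · intro h2
        exact ⟨fun i => (h2 i).1, funext fun i => (h2 i).2⟩
    obtain ⟨Q, h2, hQ⟩ := la_bound hLA hS₀ hM β γ μ hβ hcard hNZ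
    have h3 := hEQ ι C' X κ hκ
      (fun i => (Finset.card_le_card (by rw [hC']; exact Finset.filter_subset _ _)).trans (hCX i))
      (by rw [hC']; exact HB_sub hHB fun i q => lb S₀ q = β i) Q
    have h4 : ((Fintype.piFinset C).filter fun p => (fun i => lb S₀ (p i)) = β ∧
        Gd3 i M (S₀ ∪ univ.image p)) = ((Fintype.piFinset C').filter fun p =>
          Q fun e => cs (p e.1.1) (p e.1.2)) := by
      rw [← hpi, Finset.filter_filter]
      refine Finset.filter_congr fun p hp => ?_
      refine and_congr_right fun hl => ?_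
      exact hQ p (hinj p hp) (hpr p hp) (hd p hp) hl (hγp p hp) (hμp p hp)
    have h5 : (((Fintype.piFinset C').card : ℕ) : ℝ) = ∏ j, ((C' j).card : ℝ) := by
      rw [Fintype.card_piFinset]
      push_cast
      rfl
    rw [h4, hpi, h5]
    rw [← hcc] at h2
    rw [← hR] at h3
    obtain ⟨n, hn⟩ : ∃ n : ℝ, n = (((Fintype.piFinset C').filter fun p =>
          Q fun e => cs (p e.1.1) (p e.1.2)).card : ℝ) := ⟨_, rfl⟩
    obtain ⟨q, hq⟩ : ∃ q : ℝ, q = ((univ.filter Q).card : ℝ) / 3 ^ (prs ι).card := ⟨_, rfl⟩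
    obtain ⟨P, hP⟩ : ∃ P : ℝ, P = ∏ j, ((C' j).card : ℝ) := ⟨_, rfl⟩
    have hP0 : 0 ≤ P := by
      rw [hP]
      exact Finset.prod_nonneg fun j _ => by positivity
    rw [← hq] at h2
    rw [← hn, ← hq, ← hP] at h3
    rw [← hn, ← hP]
    have h6 : |n - 4 / 3 * c9 * P| ≤ |n - q * P| + |q - 4 / 3 * c9| * P := by
      have h7 : n - 4 / 3 * c9 * P = (n - q * P) + (q - 4 / 3 * c9) * P := by ring
      have h8 : |(q - 4 / 3 * c9) * P| = |q - 4 / 3 * c9| * P := by rw [abs_mul, abs_of_nonneg hP0]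
      rw [h7, ← h8]
      exact abs_add_le _ _
    have h7 : |q - 4 / 3 * c9| * P ≤ cc * P := mul_le_mul_of_nonneg_right h2 hP0
    linarith
  -- sum over the labels
  obtain ⟨LL, hLL⟩ : ∃ LL : Finset (ι → S₀ → ZMod 3), LL = univ.filter (fun β => LN3 S₀ β γ μ) :=
    ⟨_, rfl⟩
  have hfib : ∀ T : (ι → Ei) → Prop,
      (((Fintype.piFinset C).filter fun p => Nd3 S₀ (univ.image p) ∧ T p).card : ℝ) =
      ∑ β ∈ LL, (((Fintype.piFinset C).filter fun p =>
        (fun i => lb S₀ (p i)) = β ∧ T p).card : ℝ) := by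
    intro T
    have hnd : ∀ p ∈ Fintype.piFinset C, (Nd3 S₀ (univ.image p) ↔
        LN3 S₀ (fun i => lb S₀ (p i)) γ μ) := by
      intro p hp
      rw [nd_iff, hγp p hp, hμp p hp]
    rw [Finset.card_eq_sum_card_fiberwise (f := fun (p : ι → Ei) (i : ι) => lb S₀ (p i))
      (t := LL) (by
        intro p hp
        rw [Finset.mem_coe, Finset.mem_filter] at hp
        rw [Finset.mem_coe, hLL, Finset.mem_filter]
        exact ⟨Finset.mem_univ _, (hnd p hp.1).1 hp.2.1⟩)]
    push_cast
    refine Finset.sum_congr rfl fun β hβ => ?_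
    rw [hLL, Finset.mem_filter] at hβ
    congr 2
    ext p
    simp only [Finset.mem_filter]
    constructor
    · rintro ⟨⟨h3, h4, h4'⟩, h5⟩
      exact ⟨h3, h5, h4'⟩
    · rintro ⟨h3, h4, h5⟩
      refine ⟨⟨h3, ?_, h5⟩, h4⟩
      rw [hnd p h3, h4]
      exact hβ.2
  have hf1 := hfib fun p => Gd3 i M (S₀ ∪ univ.image p)
  have hf2 := hfib fun _ => True
  simp only [and_true] at hf2
  rw [← hcc, hf1, hf2, Finset.mul_sum, ← Finset.sum_sub_distrib]
  refine (Finset.abs_sum_le_sum_abs _ _).trans ?_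
  refine (Finset.sum_le_sum fun β hβ => h1 β (by
    rw [hLL] at hβ
    exact (Finset.mem_filter.1 hβ).2)).trans ?_
  rw [Finset.sum_add_distrib, ← Finset.mul_sum, Finset.sum_const, nsmul_eq_mul]
  have h5 : ((LL.card : ℕ) : ℝ) ≤ 3 ^ (S₀.card * Fintype.card ι) := by
    have h6 : LL.card ≤ Fintype.card (ι → S₀ → ZMod 3) :=
      Finset.card_le_univ _
    rw [Fintype.card_fun, Fintype.card_fun, ZMod.card, Fintype.card_coe, ← pow_mul] at h6
    exact_mod_cast h6
  have h6 := mul_le_mul_of_nonneg_right h5 hR0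
  rw [pow_add, mul_assoc, ← hR]
  linarith

end Pool.Agent.N848.SM.Bx
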