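import Pool.Agent.N848.SM.Gs
import Pool.Agent.N655.SM.All

/-!
# Project SM: the density
-/

set_option autoImplicit false
set_option linter.unusedSectionVars false

open scoped Classical

namespace Pool.Agent.N848.SM

open Filter
open Pool.Agent.Y692.QS (Ei w nr)
open Pool.Agent.Y715.T.Gi (lam)
open Pool.Agent.N883.FF (nq ClU ClP)
open Pool.Agent.R419.KF (wt el)
open Pool.Agent.Y703.XK (c9)

/-- the number of the primary cube-free elements with a property -/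
noncomputable def cnt (P : Ei → Prop) (X : ℕ) : ℝ := ({D : Ei | nr D ≤ X ∧ ClP D ∧ P D}.ncard : ℝ)

/-- the number of the primary cube-free elements -/
noncomputable def cntP (X : ℕ) : ℝ := ({D : Ei | nr D ≤ X ∧ ClP D}.ncard : ℝ)

lemma cnt_true (P : Ei → Prop) (h : ∀ D, P D) (X : ℕ) : cnt P X = cntP X := by
  unfold cnt cntP
  congr 2
  ext D
  exact ⟨fun h1 => ⟨h1.1, h1.2.1⟩, fun h1 => ⟨h1.1, h1.2, h D⟩⟩

lemma pos_ev (hc : S_CNT) : ∀ᶠ X : ℕ in atTop, 0 < cntP X := by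
  obtain ⟨c, hc0, hc⟩ := hc
  filter_upwards [hc.eventually_const_lt hc0, eventually_gt_atTop 0] with X hX h0
  have h1 : (0 : ℝ) < X := by exact_mod_cast h0
  have h2 := mul_pos hX h1
  rwa [div_mul_cancel₀ _ h1.ne'] at h2

lemma fin_nr' (X : ℕ) : {D : Ei | nr D ≤ X}.Finite := Pool.Agent.N655.SM.fin_nr X

/-- the complement -/
lemma cnt_not (P : Ei → Prop) (X : ℕ) : cnt (fun D => ¬ P D) X = cntP X - cnt P X := by
  unfold cnt cntP
  have h1 : {D : Ei | nr D ≤ X ∧ ClP D} =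
      {D : Ei | nr D ≤ X ∧ ClP D ∧ P D} ∪ {D : Ei | nr D ≤ X ∧ ClP D ∧ ¬ P D} := by
    ext D
    simp only [Set.mem_union, Set.mem_ofPred_eq]
    tauto
  have h2 : Disjoint {D : Ei | nr D ≤ X ∧ ClP D ∧ P D} {D : Ei | nr D ≤ X ∧ ClP D ∧ ¬ P D} := by
    rw [Set.disjoint_left]
    intro D h3 h4
    exact h4.2.2 h3.2.2
  rw [h1, Set.ncard_union_eq h2 ((fin_nr' X).subset fun D hD => hD.1)
    ((fin_nr' X).subset fun D hD => hD.1)]
  push_cast
  ring

/-- the proportion of the radicands of a given type -/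
theorem lim_ik (hT : S_TOT3) (hA : ∀ i, AsyM i) (h9 : S_DEN9) (hc : S_CNT) (i : ZMod 3) (k : Fin 3) :
    Tendsto (fun X : ℕ => cnt (fun D => Crit (ra i k D)) X / cntP X) atTop
      (nhds (4 / 3 * c9 * (if i = 0 ∧ (k : ℕ) = 0 then 8 / 9 else 1))) := by
  set ι : ZMod 3 × ZMod 3 := (i, -((k : ℕ) : ZMod 3)) with hι
  have hk3 : (k : ℕ) < 3 := k.2
  have h0 : ι = 0 ↔ i = 0 ∧ (k : ℕ) = 0 := by
    rw [hι, Prod.mk_eq_zero, neg_eq_zero, ZMod.natCast_eq_zero_iff]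
    refine and_congr_right fun _ => ?_
    omega
  refine hT ι (hA ι) (fun D => Crit (ra i k D)) (fun D => ι ≠ 0 ∨ ¬ (9 : Ei) ∣ D - 1) _
    (fun M S h => crit_iff h i hk3) (fun M S h => ?_) ?_
  · by_cases hz : ι = 0
    · rw [hz, Pool.Agent.N713.SM.t_NZ3.1 M S h]
      simp
    · exact ⟨fun _ => Or.inl hz, fun _ => Or.inl hz⟩
  · by_cases hz : ι = 0
    · rw [if_pos (h0.1 hz)]
      have h1 : Tendsto (fun X : ℕ => 1 - cnt (fun D => (9 : Ei) ∣ D - 1) X / cntP X) atTop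
          (nhds (1 - 1 / 9)) := tendsto_const_nhds.sub h9
      have e1 : (1 : ℝ) - 1 / 9 = 8 / 9 := by norm_num
      rw [e1] at h1
      refine h1.congr' ?_
      filter_upwards [pos_ev hc] with X hX
      have e2 : ({D : Ei | nr D ≤ X ∧ ClP D ∧ (ι ≠ 0 ∨ ¬ (9 : Ei) ∣ D - 1)}.ncard : ℝ) =
          cnt (fun D => ¬ (9 : Ei) ∣ D - 1) X := by
        unfold cnt
        congr 2
        ext D
        simp only [Set.mem_ofPred_eq, hz, ne_eq, not_true_eq_false, false_or]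
      rw [e2, cnt_not, sub_div]
      congr 1
      exact (div_self hX.ne').symm
    · rw [if_neg fun h => hz (h0.2 h)]
      refine tendsto_const_nhds.congr' ?_
      filter_upwards [pos_ev hc] with X hX
      have e2 := cnt_true (fun D => ι ≠ 0 ∨ ¬ (9 : Ei) ∣ D - 1) (fun D => Or.inl hz) X
      show (1 : ℝ) = cnt (fun D => ι ≠ 0 ∨ ¬ (9 : Ei) ∣ D - 1) X / cntP X
      rw [e2, div_self hX.ne']

lemma crit_neg (D : Ei) : Crit (-D) ↔ Crit D := by
  unfold Crit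
  rw [selm_neg]
  refine and_congr_left fun _ => ?_
  constructor
  · intro h y hy
    exact h (-y) (by rw [← hy]; ring)
  · intro h y hy
    exact h (-y) (by
      have e : (-y) ^ 3 = -(y ^ 3) := by ring
      rw [e, hy, neg_neg])

/-- the elements without cubes -/
def Cbf (D : Ei) : Prop := ∀ x : Ei, x ^ 3 ∣ D → IsUnit x

/-- **The density.** -/
theorem dens (hT : S_TOT3) (hA : ∀ i, AsyM i) (h9 : S_DEN9) (hc : S_CNT) :
    Tendsto (fun X : ℕ => ({D : Ei | nr D ≤ X ∧ Cbf D ∧ Crit D}.ncard : ℝ) /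
      ({D : Ei | nr D ≤ X ∧ Cbf D}.ncard : ℝ)) atTop (nhds (152 / 117 * c9)) := by
  have h1 := Pool.Agent.N655.SM.t_ALL hc Crit
    (fun i k => 4 / 3 * c9 * (if i = 0 ∧ (k : ℕ) = 0 then 8 / 9 else 1)) crit_neg
    (fun i k => lim_ik hT hA h9 hc i k)
  have e1 : (∑ i : ZMod 3, ∑ k : Fin 3,
      4 / 3 * c9 * (if i = 0 ∧ (k : ℕ) = 0 then 8 / 9 else 1) / 3 ^ (k : ℕ)) / (13 / 3) =
      152 / 117 * c9 := by
    have e2 : ∀ i : ZMod 3, ∑ k : Fin 3,
        4 / 3 * c9 * (if i = 0 ∧ (k : ℕ) = 0 then 8 / 9 else 1) / 3 ^ (k : ℕ) =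
        4 / 3 * c9 * (if i = 0 then 8 / 9 else 1) + 4 / 3 * c9 / 3 + 4 / 3 * c9 / 9 := by
      intro i
      rw [Fin.sum_univ_three]
      have a1 : ((1 : Fin 3) : ℕ) = 1 := rfl
      have a2 : ((2 : Fin 3) : ℕ) = 2 := rfl
      have a0 : ((0 : Fin 3) : ℕ) = 0 := rfl
      simp only [a0, a1, a2, and_true, one_ne_zero, and_false, if_false,
        OfNat.ofNat_ne_zero, pow_zero, pow_one, mul_one, div_one]
      norm_num
    rw [Finset.sum_congr rfl fun i _ => e2 i]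
    have e3 : ∀ f : ZMod 3 → ℝ, ∑ i, f i = f 0 + f 1 + f 2 := fun f => Fin.sum_univ_three f
    rw [e3, if_pos rfl, if_neg (by decide), if_neg (by decide)]
    ring
  rw [e1] at h1
  exact h1

end Pool.Agent.N848.SM
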