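import Pool.Agent.N848.SM.Fm

/-!
# Project SM: the absolute Galois group of `ℚ` and the descent to subfields
-/

set_option autoImplicit false
set_option linter.unusedSectionVars false

open scoped Topology

namespace Pool.Agent.N848.SM

open Pool.Agent.N848.Sch
open Pool.Agent.Y692.QS (Ei)
open Pool.Agent.Y715.T.Gi Pool.Agent.Y715.T.Nr Pool.Agent.Y715.T.Red Pool.Agent.Y715.T.Df
open Pool.Agent.Y715.T.Sel

variable {w₀ : QB}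

/-- the absolute Galois group of `ℚ` -/
abbrev GQ : Type := QB ≃ₐ[ℚ] QB

/-- an automorphism over `K` as an automorphism over `ℚ` -/
noncomputable def res (w₀ : QB) : GK w₀ →* GQ where
  toFun σ := σ.restrictScalars ℚ
  map_one' := rfl
  map_mul' _ _ := rfl

lemma res_apply (σ : GK w₀) (x : QB) : res w₀ σ x = σ x := rfl

lemma nhd_fix (x : QB) : {σ : GK w₀ | σ x = x} ∈ 𝓝 (1 : GK w₀) := by
  have ho : IsOpen (MulAction.stabilizer (GK w₀) x : Set (GK w₀)) :=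
    stabilizer_isOpen_of_isIntegral x
  exact ho.mem_nhds (one_mem (MulAction.stabilizer (GK w₀) x))

lemma res_cont : Continuous (res w₀) := by
  refine continuous_of_continuousAt_one _ ?_
  unfold ContinuousAt
  rw [map_one]
  intro s hs
  rw [krullTopology_mem_nhds_one_iff] at hs
  obtain ⟨E, hE, hEs⟩ := hs
  have := hE
  let b := Module.finBasis ℚ E
  rw [Filter.mem_map]
  filter_upwards [(Filter.iInter_mem (s := fun i =>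
    {σ : GK w₀ | σ ((b i : E) : QB) = ((b i : E) : QB)})).2 fun i => nhd_fix _] with σ hσ
  apply hEs
  rw [SetLike.mem_coe, IntermediateField.mem_fixingSubgroup_iff]
  intro x hx
  have h2 := b.sum_repr ⟨x, hx⟩
  have h3 : x = ∑ i, (b.repr ⟨x, hx⟩ i) • ((b i : E) : QB) := by
    have h4 := congrArg (fun z : E => (z : QB)) h2
    simp only [IntermediateField.coe_sum, IntermediateField.coe_smul] at h4
    exact h4.symm
  rw [h3, map_sum]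
  refine Finset.sum_congr rfl fun i _ => ?_
  have h4 : σ ((b i : E) : QB) = ((b i : E) : QB) := Set.mem_iInter.1 hσ i
  rw [Algebra.smul_def, map_mul, AlgEquiv.commutes]
  exact congrArg (fun z => algebraMap ℚ QB (b.repr ⟨x, hx⟩ i) * z) h4

/-- the automorphisms which fix `w` come from the Galois group over `K` -/
lemma exists_res {σ : GQ} (h : σ w₀ = w₀) : ∃ τ : GK w₀, res w₀ τ = σ := by
  have hfix : σ ∈ (KK w₀).fixingSubgroup := by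
    rw [IntermediateField.mem_fixingSubgroup_iff]
    intro x hx
    have h1 : KK w₀ ≤ IntermediateField.fixedField (Subgroup.zpowers σ) := by
      unfold KK
      rw [IntermediateField.adjoin_le_iff]
      rintro y rfl
      rw [SetLike.mem_coe, IntermediateField.mem_fixedField_iff]
      intro τ hτ
      obtain ⟨k, rfl⟩ := hτ
      have h2 : σ ∈ MulAction.stabilizer GQ y := h
      exact (MulAction.stabilizer GQ y).zpow_mem h2 k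
    exact (IntermediateField.mem_fixedField_iff _ x).1 (h1 hx) σ (Subgroup.mem_zpowers σ)
  refine ⟨(IntermediateField.fixingSubgroupEquiv (KK w₀)) ⟨σ, hfix⟩, ?_⟩
  ext x
  rfl

/-- the cyclotomic character -/
noncomputable def cycQ : GQ →* ℤ_[3]ˣ :=
  (cyclotomicCharacter QB 3).comp (MulSemiringAction.toRingAut GQ QB)

lemma cyc_res (σ : GK w₀) : cycQ (res w₀ σ) = Pool.Agent.N848.Sch.cyc w₀ σ := rfl

/-- the value of the twist -/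
noncomputable def tw (r : ℤ) (σ : GQ) : ℤ_[3] := (((cycQ σ) ^ r : ℤ_[3]ˣ) : ℤ_[3])

lemma tw_mul (r : ℤ) (σ τ : GQ) : tw r (σ * τ) = tw r σ * tw r τ := by
  unfold tw
  rw [map_mul, mul_zpow, Units.val_mul]

lemma tw_one (r : ℤ) : tw r 1 = 1 := by
  unfold tw
  rw [map_one, one_zpow, Units.val_one]

lemma tw_conj (r : ℤ) (σ τ : GQ) : tw r (σ⁻¹ * τ * σ) = tw r τ := by
  rw [tw_mul, tw_mul]
  have h1 : tw r σ⁻¹ * tw r σ = 1 := by rw [← tw_mul, inv_mul_cancel, tw_one]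
  linear_combination tw r τ * h1

/-- the decomposition group -/
def DecQ {p : ℕ} [Fact p.Prime] (ι : QB →ₐ[ℚ] PadicAlgCl p) : Set GQ :=
  {σ | ∃ τ : Au p, ∀ x, τ (ι x) = ι (σ x)}

/-- the inertia group -/
def InrQ {p : ℕ} [Fact p.Prime] (ι : QB →ₐ[ℚ] PadicAlgCl p) : Set GQ :=
  {σ | ∃ τ : Au p, (∀ x, τ (ι x) = ι (σ x)) ∧ Inert τ}

/-- **From a normal subgroup to `H`.** -/
theorem descend (hw : w₀ ^ 2 + w₀ + 1 = 0) {H N : Subgroup GQ} (hle : N ≤ H) (hn : N.Normal)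
    {r : ℤ} (hr : r ≠ 0) {n : ℕ} (hn0 : n ≠ 0) (hpow : ∀ σ : GQ, σ ^ n ∈ N) (c : ↥H → ℤ_[3])
    (mul : ∀ σ τ : H, c (σ * τ) = c σ + tw r (σ : GQ) * c τ)
    (three : ∀ ι : QB →ₐ[ℚ] PadicAlgCl 3, ∃ z : ℤ_[3], ∀ σ : H, (σ : GQ) ∈ DecQ ι →
      c σ = (tw r (σ : GQ) - 1) * z)
    (hv : ∃ y : ℤ_[3], ∀ σ : H, (σ : GQ) ∈ N → c σ = (tw r (σ : GQ) - 1) * y) :
    ∃ z : ℤ_[3], ∀ σ : H, c σ = (tw r (σ : GQ) - 1) * z := by
  obtain ⟨y, hy⟩ := hv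
  obtain ⟨ι⟩ := exists_emb3
  obtain ⟨z, hz⟩ := three ι
  obtain ⟨τ₁, σ₁, hc, hE⟩ := exists_E_ne hw ι hr hn0
  set τ : GQ := (res w₀ σ₁) ^ n with hτ
  have hτN : τ ∈ N := hpow _
  have hτr : τ = res w₀ (σ₁ ^ n) := (map_pow _ _ _).symm
  have hτD : τ ∈ DecQ ι := by
    rw [hτr]
    exact ⟨τ₁ ^ n, cmp_pow hc n⟩
  have hne : tw r τ - 1 ≠ 0 := by
    intro h
    apply hE
    unfold E
    rw [← om_one]
    congr 1
    have h1 := sub_eq_zero.1 h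
    rw [hτr] at h1
    exact h1
  have hyz : y = z := by
    have h1 := hy ⟨τ, hle hτN⟩ hτN
    rw [hz ⟨τ, hle hτN⟩ hτD] at h1
    exact (mul_left_cancel₀ hne h1).symm
  refine ⟨z, fun σ => ?_⟩
  have hc : (σ : GQ)⁻¹ * τ * (σ : GQ) ∈ N := by
    have := hn.conj_mem τ hτN (σ : GQ)⁻¹
    rwa [inv_inv] at this
  have e1 := mul ⟨τ, hle hτN⟩ σ
  have e2 := mul σ ⟨_, hle hc⟩
  have e3 : σ * (⟨_, hle hc⟩ : H) = (⟨τ, hle hτN⟩ : H) * σ := by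
    apply Subtype.ext
    show (σ : GQ) * ((σ : GQ)⁻¹ * τ * (σ : GQ)) = τ * σ
    group
  rw [e3, e1, hy ⟨τ, hle hτN⟩ hτN, hy ⟨_, hle hc⟩ hc, tw_conj, hyz] at e2
  apply mul_left_cancel₀ hne
  linear_combination e2

/-- the absolute Galois group of `K(s)` -/
def fixG (w₀ s : QB) : Subgroup GQ where
  carrier := {σ | σ w₀ = w₀ ∧ σ s = s}
  mul_mem' := by
    intro a b ha hb
    exact ⟨by rw [AlgEquiv.mul_apply, hb.1, ha.1], by rw [AlgEquiv.mul_apply, hb.2, ha.2]⟩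
  one_mem' := ⟨rfl, rfl⟩
  inv_mem' := by
    intro a ha
    have key : ∀ x : QB, a x = x → a⁻¹ x = x := by
      intro x h1
      calc a⁻¹ x = a⁻¹ (a x) := by rw [h1]
        _ = x := by rw [← AlgEquiv.mul_apply, inv_mul_cancel, AlgEquiv.one_apply]
    exact ⟨key w₀ ha.1, key s ha.2⟩

lemma mem_fixG {s : QB} {σ : GQ} : σ ∈ fixG w₀ s ↔ σ w₀ = w₀ ∧ σ s = s := Iff.rfl

/-- the subgroup over `K` -/
noncomputable abbrev sb (w₀ s : QB) : Subgroup (GK w₀) :=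
  (IntermediateField.adjoin (KK w₀) {s}).fixingSubgroup

lemma res_mem {s : QB} {σ : GK w₀} (h : σ ∈ sb w₀ s) : res w₀ σ ∈ fixG w₀ s :=
  ⟨gk_fix σ, mem_fix.1 h⟩

lemma sq_fix (hw : w₀ ^ 2 + w₀ + 1 = 0) (g : GQ) : (g ^ 2) w₀ = w₀ := by
  have h1 : (g w₀) ^ 2 + g w₀ + 1 = 0 := by
    rw [← map_pow, ← map_add, ← map_one g, ← map_add, hw, map_zero]
  have h2 : (g w₀ - w₀) * (g w₀ - (-1 - w₀)) = 0 := by linear_combination h1 - hw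
  rw [pow_two, AlgEquiv.mul_apply]
  rcases mul_eq_zero.1 h2 with h3 | h3
  · rw [sub_eq_zero.1 h3, sub_eq_zero.1 h3]
  · have h4 := sub_eq_zero.1 h3
    rw [h4, map_sub, map_neg, map_one, h4]
    ring

lemma six_mem (hw : w₀ ^ 2 + w₀ + 1 = 0) {D : Ei} {s : QB} (hs : s ^ 3 = ev w₀ hw D) (g : GQ) :
    g ^ 6 ∈ fixG w₀ s := by
  obtain ⟨τ, hτ⟩ := exists_res (sq_fix hw g)
  have h1 : g ^ 6 = res w₀ (τ ^ 3) := by
    rw [map_pow, hτ, ← pow_mul]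
  rw [h1]
  refine ⟨gk_fix _, ?_⟩
  rw [res_apply]
  obtain ⟨n, hn⟩ := cube_eq hw (a := τ s) (b := s) (by rw [← map_pow, hs, gk_ev])
  have h2 : ∀ m : ℕ, (τ ^ m) s = w₀ ^ (n * m) * s := by
    intro m
    induction m with
    | zero => rw [pow_zero, mul_zero, pow_zero, one_mul, AlgEquiv.one_apply]
    | succ m ih =>
      rw [pow_succ, AlgEquiv.mul_apply, hn, map_mul, map_pow, gk_fix, ih]
      ring
  rw [h2, mul_comm n 3, pow_mul, i₀_cube hw, one_pow, one_mul]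

/-- **From a subgroup to a larger group.** -/
theorem shaN (hw : w₀ ^ 2 + w₀ + 1 = 0) {N H : Subgroup GQ} (hle : N ≤ H) {r : ℤ}
    (hr : r ≠ 0) {n : ℕ} (hn0 : n ≠ 0) (hpow : ∀ σ : GQ, σ ^ n ∈ N) (c : ↥H → ℤ_[3])
    (mul : ∀ σ τ : H, c (σ * τ) = c σ + tw r (σ : GQ) * c τ)
    (three : ∀ ι : QB →ₐ[ℚ] PadicAlgCl 3, ∃ z : ℤ_[3], ∀ σ : H, (σ : GQ) ∈ DecQ ι →
      c σ = (tw r (σ : GQ) - 1) * z)
    (hv : ∃ y : ℤ_[3], ∀ σ : N, c ⟨σ, hle σ.2⟩ = (tw r (σ : GQ) - 1) * y) :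
    ∃ z : ℤ_[3], ∀ σ : H, c σ = (tw r (σ : GQ) - 1) * z := by
  obtain ⟨y, hy⟩ := hv
  refine descend hw (N := N.normalCore) ((Subgroup.normalCore_le _).trans hle)
    inferInstance hr hn0 ?_ c mul three ⟨y, fun σ hσ => ?_⟩
  · intro σ b
    have e : b * σ ^ n * b⁻¹ = (b * σ * b⁻¹) ^ n := by rw [conj_pow]
    rw [e]
    exact hpow _
  · exact hy ⟨(σ : GQ), Subgroup.normalCore_le _ hσ⟩

/-- the data of a cyclic extension of `K` of degree `3 ^ (k + 1)` with absolute Galois group `H` -/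
structure Adm (hw : w₀ ^ 2 + w₀ + 1 = 0) (D : Ei) (k : ℕ) (H : Subgroup GQ) : Prop where
  base : ∀ σ ∈ H, σ w₀ = w₀
  root : ∃ s : QB, s ^ 3 = ev w₀ hw D ∧ ∀ σ ∈ H, σ s = s
  opn : IsOpen (H : Set GQ)
  cyc : ∃ f : GQ → ZMod (3 ^ (k + 1)), (∀ x, ∃ σ : GQ, σ w₀ = w₀ ∧ f σ = x) ∧
    (∀ σ τ : GQ, σ w₀ = w₀ → τ w₀ = w₀ → f (σ * τ) = f σ + f τ) ∧
    ∀ σ : GQ, σ w₀ = w₀ → (f σ = 0 ↔ σ ∈ H)
  unr : ∀ (p : ℕ) [Fact p.Prime] (ι : QB →ₐ[ℚ] PadicAlgCl p), p ≠ 3 → ¬ ‖ι (ev w₀ hw D)‖ < 1 →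
    ∀ σ ∈ InrQ ι, σ w₀ = w₀ → σ ∈ H

variable {hw : w₀ ^ 2 + w₀ + 1 = 0} {D : Ei} {k : ℕ} {H : Subgroup GQ}

lemma Adm.pow (h : Adm hw D k H) (g : GQ) : g ^ (2 * 3 ^ (k + 1)) ∈ H := by
  obtain ⟨f, h1, h2, h3⟩ := h.cyc
  have hg := sq_fix hw g
  have hfix : ∀ m : ℕ, ((g ^ 2) ^ m) w₀ = w₀ := by
    intro m
    induction m with
    | zero => rw [pow_zero, AlgEquiv.one_apply]
    | succ m ih => rw [pow_succ, AlgEquiv.mul_apply, hg, ih]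
  have hone : f 1 = 0 := (h3 1 rfl).2 H.one_mem
  have key : ∀ m : ℕ, f ((g ^ 2) ^ m) = m * f (g ^ 2) := by
    intro m
    induction m with
    | zero => rw [pow_zero, hone, Nat.cast_zero, zero_mul]
    | succ m ih =>
      rw [pow_succ (g ^ 2) m, h2 _ _ (hfix m) hg, ih]
      push_cast
      ring
  rw [pow_mul, ← h3 _ (hfix _), key, CharP.cast_eq_zero, zero_mul]

/-- the subgroup over `K` -/
noncomputable def Hk (w₀ : QB) (H : Subgroup GQ) : Subgroup (GK w₀) := H.comap (res w₀)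

lemma Adm.dat (h : Adm hw D k H) (hD : D ≠ 0)
    (hne : ∀ χ : GK w₀ → ZMod 3, Kc hw D χ → ∃ σ, χ σ ≠ 0) : ∃ a, Dat hw (Hk w₀ H) k D a := by
  obtain ⟨s, hs, hsH⟩ := h.root
  obtain ⟨f, h1, h2, h3⟩ := h.cyc
  refine dat_cyclic hw hD hs hne (h.opn.preimage res_cont) (a := fun σ => f (res w₀ σ)) ?_ ?_ ?_ ?_
  · intro x
    obtain ⟨σ, hσ, hx⟩ := h1 x
    obtain ⟨τ, hτ⟩ := exists_res hσ
    exact ⟨τ, by rw [← hx, ← hτ]⟩
  · intro σ τ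
    rw [map_mul]
    exact h2 _ _ (gk_fix σ) (gk_fix τ)
  · intro σ
    exact h3 _ (gk_fix σ)
  · intro σ hσ
    exact hsH _ hσ

/-- **The rank theorem.** -/
theorem Adm.rank (h : Adm hw D k H) {J : Type} [Fintype J] [DecidableEq J] {π : J → Ei}
    {e : J → ZMod 3} {i : ZMod 3} {q : ℕ} (hπ : PP π) (he : ∀ j, e j ≠ 0)
    (hD : D = DD i q π e) (hn : Nonempty J ∨ i ≠ 0 ∨ (q : ZMod 3) ≠ 0) {d : ℕ}
    (hd : (Sol i q π e).ncard ≤ 3 ^ d) {r : ℤ} (hr : r ≠ 0) {m : ℕ}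
    (hm : (3 ^ (k + 1) - 1) * d < m) {c : Fin m → H → ℤ_[3]} (cont : ∀ l, Continuous (c l))
    (mul : ∀ l (σ τ : H), c l (σ * τ) = c l σ + tw r (σ : GQ) * c l τ)
    (away : ∀ l (p : ℕ) [Fact p.Prime] (ι : QB →ₐ[ℚ] PadicAlgCl p), p ≠ 3 →
      ∀ σ : H, (σ : GQ) ∈ InrQ ι → c l σ = 0)
    (three : ∀ l (ι : QB →ₐ[ℚ] PadicAlgCl 3), ∃ z : ℤ_[3], ∀ σ : H, (σ : GQ) ∈ DecQ ι →
      c l σ = (tw r (σ : GQ) - 1) * z) :
    ∃ X : Fin m → ℤ_[3], (∃ l, X l ≠ 0) ∧ ∃ y : ℤ_[3], ∀ σ : H,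
      ∑ l, X l * c l σ = (tw r (σ : GQ) - 1) * y := by
  have hD0 : D ≠ 0 := by
    rw [hD]
    exact DD_ne hπ i q e
  obtain ⟨a, ha⟩ := h.dat hD0 fun χ hχ => kc_neM hπ he hn (by rw [← hD]; exact hχ)
  obtain ⟨X, hX, y, hy⟩ := rank_fieldM ha hπ he hD
    (fun p _ ι hp hlt τ σ hc hin => h.unr p ι hp hlt (res w₀ σ) ⟨τ, hc, hin⟩ (gk_fix σ))
    hd hr hm (c := fun l (σ : Hk w₀ H) => c l ⟨res w₀ (σ : GK w₀), σ.2⟩)
    (fun l => (cont l).comp (Continuous.subtype_mk (res_cont.comp continuous_subtype_val) _))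
    (fun l σ τ => mul l ⟨_, σ.2⟩ ⟨_, τ.2⟩)
    (fun l p _ ι hp τ σ hc hin => away l p ι hp ⟨_, σ.2⟩ ⟨τ, hc, hin⟩)
    (fun l ι => by
      obtain ⟨z, hz⟩ := three l ι
      exact ⟨z, fun τ σ hc => hz ⟨_, σ.2⟩ ⟨τ, hc⟩⟩)
  refine ⟨X, hX, y, fun σ => ?_⟩
  obtain ⟨τ, hτ⟩ := exists_res (h.base σ σ.2)
  have hm' : τ ∈ Hk w₀ H := by
    show res w₀ τ ∈ H
    rw [hτ]
    exact σ.2
  have h1 := hy ⟨τ, hm'⟩
  have h5 : (⟨res w₀ τ, hm'⟩ : H) = σ := Subtype.ext hτ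
  have h4 : ∑ l, X l * c l (⟨res w₀ τ, hm'⟩ : H) = (tw r (res w₀ τ) - 1) * y := h1
  rw [h5, hτ] at h4
  exact h4

lemma res_inj {σ τ : GK w₀} (h : res w₀ σ = res w₀ τ) : σ = τ := by
  ext x
  rw [← res_apply, h, res_apply]

/-- the field `K(s)` -/
theorem adm_cubic (hD : D ≠ 0) {s : QB} (hs : s ^ 3 = ev w₀ hw D)
    (hne : ∀ χ : GK w₀ → ZMod 3, Kc hw D χ → ∃ σ, χ σ ≠ 0) : Adm hw D 0 (fixG w₀ s) := by
  classical
  obtain ⟨a, ha⟩ := dat_cubic hw hD hs hne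
  have hmem : ∀ τ : GK w₀, τ ∈ sb w₀ s ↔ res w₀ τ ∈ fixG w₀ s := fun τ =>
    ⟨fun h => res_mem h, fun h => mem_fix.2 h.2⟩
  refine ⟨fun σ hσ => hσ.1, ⟨s, hs, fun σ hσ => hσ.2⟩, ?_, ?_, ?_⟩
  · have h1 : IsOpen (MulAction.stabilizer GQ w₀ : Set GQ) := stabilizer_isOpen_of_isIntegral w₀
    have h2 : IsOpen (MulAction.stabilizer GQ s : Set GQ) := stabilizer_isOpen_of_isIntegral s
    exact h1.inter h2
  · obtain ⟨t, ht⟩ := ha.sur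
    obtain ⟨f, hf⟩ : ∃ f : GQ → ZMod (3 ^ (0 + 1)), ∀ τ : GK w₀, f (res w₀ τ) = a τ := by
      refine ⟨fun σ => if h : ∃ τ : GK w₀, res w₀ τ = σ then a h.choose else 0, fun τ => ?_⟩
      have h : ∃ τ' : GK w₀, res w₀ τ' = res w₀ τ := ⟨τ, rfl⟩
      have h1 : (if h : ∃ τ' : GK w₀, res w₀ τ' = res w₀ τ then a h.choose else 0) =
          a h.choose := dif_pos h
      exact h1.trans (congrArg a (res_inj h.choose_spec))
    refine ⟨f, ?_, ?_, ?_⟩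
    · intro x
      refine ⟨res w₀ (t ^ x.val), gk_fix _, ?_⟩
      rw [hf, a_pow ha.mul, ht, mul_one, ZMod.natCast_zmod_val]
    · intro σ τ hσ hτ
      obtain ⟨σ', rfl⟩ := exists_res hσ
      obtain ⟨τ', rfl⟩ := exists_res hτ
      rw [← map_mul, hf, hf, hf, ha.mul]
    · intro σ hσ
      obtain ⟨σ', rfl⟩ := exists_res hσ
      rw [hf, ha.ker, hmem]
  · rintro p _ ι hp hlt σ ⟨τ, hc, hin⟩ hσ
    rw [iota_ev] at hlt
    obtain ⟨ρ, hρ⟩ := exists_res hσ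
    have h1 : τ (ι s) = ι s := by
      refine fix_of_unit (iota_sq hw ι) hp (z := D)
        (by rw [← map_pow, hs, iota_ev]) hlt hin ?_
      rw [hc, hσ]
    rw [hc] at h1
    exact ⟨hσ, ι.injective h1⟩

/-- torsion-freeness -/
theorem tfQ (hw : w₀ ^ 2 + w₀ + 1 = 0) {n : ℕ} (hn0 : n ≠ 0) (hpow : ∀ σ : GQ, σ ^ n ∈ H)
    {r : ℤ} (hr : r ≠ 0) {c : H → ℤ_[3]}
    (three : ∀ (ι : QB →ₐ[ℚ] PadicAlgCl 3), ∃ z : ℤ_[3], ∀ σ : H, (σ : GQ) ∈ DecQ ι →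
      c σ = (tw r (σ : GQ) - 1) * z)
    {X : ℤ_[3]} (hX : X ≠ 0) {y : ℤ_[3]} (hy : ∀ σ : H, X * c σ = (tw r (σ : GQ) - 1) * y) :
    ∃ y : ℤ_[3], ∀ σ : H, c σ = (tw r (σ : GQ) - 1) * y := by
  obtain ⟨ι⟩ := exists_emb3
  obtain ⟨z, hz⟩ := three ι
  obtain ⟨τ₁, σ₁, hc, hE⟩ := exists_E_ne hw ι hr hn0
  have hτr : (res w₀ σ₁) ^ n = res w₀ (σ₁ ^ n) := (map_pow _ _ _).symm
  have hmem : (res w₀ σ₁) ^ n ∈ H := hpow _
  have hD : (res w₀ σ₁) ^ n ∈ DecQ ι := by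
    rw [hτr]
    exact ⟨τ₁ ^ n, cmp_pow hc n⟩
  have hne : tw r ((res w₀ σ₁) ^ n) - 1 ≠ 0 := by
    intro h
    apply hE
    unfold E
    rw [← om_one]
    congr 1
    have h1 := sub_eq_zero.1 h
    rw [hτr] at h1
    exact h1
  have h1 := hy ⟨_, hmem⟩
  rw [hz ⟨_, hmem⟩ hD] at h1
  have h2 : y = X * z := by
    apply mul_left_cancel₀ hne
    rw [← h1]
    ring
  refine ⟨z, fun σ => mul_left_cancel₀ hX ?_⟩
  rw [hy σ, h2]
  ring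

end Pool.Agent.N848.SM
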