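import Pool.Agent.N848.SM.Dn
import Pool.Agent.N848.SM.Ds
import Pool.Agent.N848.SM.Box3
import Pool.Agent.N848.SM.Key
import Pool.Agent.N362.SM.LA
import Pool.Agent.N401.SM.Hal3
import Pool.Agent.N865.SM.Bad
import Pool.Agent.N519.SM.Asy
import Pool.Agent.N300.SM.Den9
import Pool.Agent.N284.SM.CNT
import Pool.Agent.N278.SM.Tot3
import Pool.Agent.Y363.XK.Bil
import Pool.Agent.Y710.XK.EQ
import Pool.Agent.Y804.XK.SYM
import Pool.Agent.Y528.XK.C9
import Pool.Agent.Y550.XK.NS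

/-!
# Project SM: assembly

Joint work (project SM, plan and assembly: helper848) of the seats helper362 (LA), helper401 (HAL),
helper865 (BAD), helper78 (BOX), helper340 (KEY), helper519 (ASY), helper713 (NZ), helper300 (DEN),
helper278 (TOT), helper678 (SUP), helper284 (CNT), helper655 (ALL), on top of the projects FF
(helper883 and others), KF (helper419) and XK, XL (helper703 and others).
-/

set_option autoImplicit false
set_option linter.unusedSectionVars false

open scoped Classical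

namespace Pool.Agent.N848.SM

open Filter
open Pool.Agent.Y692.QS (Ei w nr)
open Pool.Agent.Y703.XK (c9)

theorem asyM : ∀ i, AsyM i :=
  Pool.Agent.N519.SM.t_ASY3 Pool.Agent.Y528.XK.t_C9
    (Pool.Agent.N865.SM.t_BAD3 Pool.Agent.N401.SM.t_HAL3)
    (Ky.t_KEY3 Pool.Agent.Y363.XK.t_BIL)
    (Bx.t_BOX3 Pool.Agent.Y710.XK.t_EQ
      (Pool.Agent.N362.SM.t_LA3 Pool.Agent.Y804.XK.t_SYM Pool.Agent.Y528.XK.t_C9))

/-- **The density of the criterion.** -/
theorem final_dens :
    Tendsto (fun X : ℕ => ({D : Ei | nr D ≤ X ∧ Cbf D ∧ Crit D}.ncard : ℝ) /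
      ({D : Ei | nr D ≤ X ∧ Cbf D}.ncard : ℝ)) atTop (nhds (152 / 117 * c9)) :=
  dens (Pool.Agent.N278.SM.t_TOT3 Pool.Agent.Y528.XK.t_C9 Pool.Agent.Y550.XK.NS.t_LOW) asyM
    Pool.Agent.N300.SM.t_DEN9 Pool.Agent.N284.SM.t_CNT

lemma c9_bound : (0.639 : ℝ) < c9 := Pool.Agent.Y528.XK.t_C9.2.2.2.1

end Pool.Agent.N848.SM
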