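import Pool.Agent.N848.SM.Rk
import Pool.Agent.N848.Sch.M

/-!
# Project SM: the rank theorem for fields
-/

set_option autoImplicit false
set_option linter.unusedSectionVars false

namespace Pool.Agent.N848.SM

open Pool.Agent.N848.Sch
open Pool.Agent.Y692.QS hiding rho
open Pool.Agent.Y715.T.Gi Pool.Agent.Y715.T.Nr Pool.Agent.Y715.T.Red Pool.Agent.Y715.T.Df
open Pool.Agent.Y715.T.Sel
open Pool.Agent.Y715.T.Rec (cs)
open Pool.Agent.Y715.T.RecG (Pq)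

variable {i₀ : QB}

/-- the radicand is a unit away from its primes -/
lemma norm_DD {hi : i₀ ^ 2 + i₀ + 1 = 0} {J : Type} [Fintype J] {π : J → Ei} {e : J → ZMod 3}
    {i : ZMod 3} {q : ℕ} {p : ℕ} [Fact p.Prime] (hp : p ≠ 3) (ι : QB →ₐ[ℚ] PadicAlgCl p)
    (hnd : ∀ j, ¬ ‖ι (ev i₀ hi (π j))‖ < 1) : ¬ ‖ι (ev i₀ hi (DD i q π e))‖ < 1 := by
  have h1 : ∀ j, ‖ι (ev i₀ hi (π j))‖ = 1 := by
    intro j
    have := hnd j
    rw [iota_ev] at this ⊢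
    exact eq_one_of_not_lt (iota_sq hi ι) this
  have h2 : ‖ι (ev i₀ hi lam)‖ = 1 := by
    have h3 : (ι (ev i₀ hi lam)) ^ 2 = -3 := by
      rw [← map_pow, ← map_pow, Pool.Agent.Y715.T.Gi.lam_sq, map_neg, map_neg, map_ofNat, map_ofNat]
    have h4 : ‖ι (ev i₀ hi lam)‖ ^ 2 = 1 := by
      rw [← norm_pow, h3, norm_neg, norm_three_one hp]
    exact (pow_eq_one_iff_of_nonneg (norm_nonneg _) two_ne_zero).1 h4
  have h3 : ‖ι (ev i₀ hi w)‖ = 1 := Pool.Agent.N883.FF.Sel.unit_norm ι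
  unfold DD
  simp only [map_mul, map_pow, map_prod, norm_mul, norm_pow, norm_prod, h1, h2, h3, one_pow,
    mul_one, Finset.prod_const_one]
  exact lt_irrefl _

/-- the Kummer character is not trivial -/
lemma kc_neM {hi : i₀ ^ 2 + i₀ + 1 = 0} {J : Type} [Fintype J] [DecidableEq J] {π : J → Ei}
    {e : J → ZMod 3} (hπ : PP π) (he : ∀ j, e j ≠ 0) {i : ZMod 3} {q : ℕ}
    (h : Nonempty J ∨ i ≠ 0 ∨ (q : ZMod 3) ≠ 0)
    {χ : GK i₀ → ZMod 3} (hχ : Kc hi (DD i q π e) χ) : ∃ σ, χ σ ≠ 0 := by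
  rcases h with ⟨⟨j⟩⟩ | h
  · obtain ⟨p, hp, ι, hl⟩ := exists_emb hi (hπ.pq j).prime
    have hp3 := odd_of hi ι (hπ.pq j).prime hl (pq_not_assoc (hπ.pq j))
    obtain ⟨τ₁, σ₁, c, hc₁, hτ₁, hc0, hs₁⟩ := exists_ram (hπ.pq j).prime hp3 ι hl
    refine ⟨σ₁, ?_⟩
    rw [ram_DD hπ hχ j hp3 ι hl hc₁ hτ₁ hs₁]
    exact mul_ne_zero (he j) hc0
  · obtain ⟨ι⟩ := exists_emb3
    obtain ⟨-, σ, -, hσ⟩ := exists_three' hπ (by
      rcases h with h | h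
      · exact Or.inl h
      · exact Or.inr (Or.inl h)) hχ ι
    exact ⟨σ, hσ⟩

/-- the rank theorem for fields -/
theorem rank_fieldM {hi : i₀ ^ 2 + i₀ + 1 = 0} {H : Subgroup (GK i₀)} {k : ℕ} {D : Ei}
    {a : GK i₀ → ZMod (3 ^ (k + 1))} (hdat : Dat hi H k D a)
    {J : Type} [Fintype J] [DecidableEq J] {π : J → Ei} {e : J → ZMod 3} {i : ZMod 3} {q : ℕ}
    (hπ : PP π) (he : ∀ j, e j ≠ 0) (hprod : D = DD i q π e)
    (HU : ∀ (p : ℕ) [Fact p.Prime] (ι : QB →ₐ[ℚ] PadicAlgCl p), p ≠ 3 →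
      ¬ ‖ι (ev i₀ hi D)‖ < 1 → ∀ (τ : Au p) (σ : GK i₀), Cmp ι τ σ → Inert τ →
        σ ∈ H)
    {d : ℕ} (hd : (Sol i q π e).ncard ≤ 3 ^ d) {r : ℤ} (hr : r ≠ 0) {m : ℕ}
    (hm : (3 ^ (k + 1) - 1) * d < m) {c : Fin m → H → ℤ_[3]}
    (hcc : ∀ l, Continuous (c l))
    (hct : ∀ l (σ τ : H), c l (σ * τ) = c l σ +
      (((cyc i₀ (σ : GK i₀)) ^ r : ℤ_[3]ˣ) : ℤ_[3]) * c l τ)
    (H1 : ∀ l (p : ℕ) [Fact p.Prime] (ι : QB →ₐ[ℚ] PadicAlgCl p), p ≠ 3 →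
      ∀ (τ : Au p) (σ : H), Cmp ι τ (σ : GK i₀) → Inert τ → c l σ = 0)
    (H3 : ∀ l (ι : QB →ₐ[ℚ] PadicAlgCl 3), ∃ y : ℤ_[3], ∀ (τ : Au 3) (σ : H),
      Cmp ι τ (σ : GK i₀) → c l σ = ((((cyc i₀ (σ : GK i₀)) ^ r : ℤ_[3]ˣ) : ℤ_[3]) - 1) * y) :
    ∃ X : Fin m → ℤ_[3], (∃ l, X l ≠ 0) ∧ ∃ y : ℤ_[3], ∀ σ : H,
      ∑ l, X l * c l σ = ((((cyc i₀ (σ : GK i₀)) ^ r : ℤ_[3]ˣ) : ℤ_[3]) - 1) * y := by
  classical
  subst hprod
  obtain ⟨ζ, hζ⟩ := HasEnoughRootsOfUnity.exists_primitiveRoot QB (3 ^ (k + 1))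
  obtain ⟨ι₀⟩ := exists_emb3
  have hζ' : IsPrimitiveRoot (ι₀ ζ) (3 ^ (k + 1)) := hζ.map_of_injective ι₀.injective
  obtain ⟨t, ht⟩ := hdat.sur
  set c' : Fin m → GK i₀ → ℤ_[3] := fun l σ =>
    if h : σ ∈ H then c l ⟨σ, h⟩ else 0 with hc'
  have hval : ∀ l (σ : H), c' l (σ : GK i₀) = c l σ := by
    intro l σ
    rw [hc']
    exact dif_pos σ.2
  have hval' : ∀ l (σ : GK i₀) (h : σ ∈ H), c' l σ = c l ⟨σ, h⟩ := by
    intro l σ h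
    rw [hc']
    exact dif_pos h
  have hclop : IsClopen (H : Set (GK i₀)) := by
    have e1 : (H : Set (GK i₀)) = a ⁻¹' {0} := by
      ext σ
      exact (hdat.ker σ).symm
    rw [e1]
    exact hdat.lc.isClopen_fiber 0
  have hcont : ∀ l, Continuous (c' l) := by
    intro l
    rw [← continuousOn_univ, ← Set.union_compl_self (H : Set (GK i₀))]
    refine ContinuousOn.union_of_isOpen ?_ ?_ hclop.isOpen hclop.compl.isOpen
    · rw [continuousOn_iff_continuous_domRestrict]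
      have e : (↑H : Set (GK i₀)).domRestrict (c' l) = fun σ => c l σ := by
        funext σ
        exact hval l σ
      rw [e]
      exact hcc l
    · refine (continuousOn_const (c := (0 : ℤ_[3]))).congr fun σ hσ => ?_
      rw [hc']
      exact dif_neg hσ
  obtain ⟨X, hX, y, hy⟩ := rankM (c := c') hi hζ' hdat.mul hdat.lc ht hπ he hdat.kc
    (fun p _ ι hp hnd τ σ hc hin => (hdat.ker σ).2 (HU p ι hp (norm_DD hp ι hnd) τ σ hc hin))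
    (fun l σ τ hσ hτ => by
      have hσ' := (hdat.ker σ).1 hσ
      have hτ' := (hdat.ker τ).1 hτ
      rw [hval' l σ hσ', hval' l τ hτ', hval' l (σ * τ) (mul_mem hσ' hτ')]
      have := hct l ⟨σ, hσ'⟩ ⟨τ, hτ'⟩
      have e1 : (⟨σ * τ, mul_mem hσ' hτ'⟩ : H) = ⟨σ, hσ'⟩ * ⟨τ, hτ'⟩ := rfl
      rw [e1, this, om_add, om_mul]
      rfl)
    hcont
    (fun l p _ ι hp τ σ hc hin hσ => by
      rw [hval' l σ ((hdat.ker σ).1 hσ), H1 l p ι hp τ ⟨σ, (hdat.ker σ).1 hσ⟩ hc hin, om_zero])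
    (fun l ι => by
      obtain ⟨y, hy⟩ := H3 l ι
      refine ⟨y, fun τ σ hc hσ => ?_⟩
      rw [hval' l σ ((hdat.ker σ).1 hσ), hy τ ⟨σ, (hdat.ker σ).1 hσ⟩ hc, om_mul, om_sub, om_one]
      rfl) hr hd hm
  refine ⟨X, hX, y, fun σ => ?_⟩
  rw [← hy (σ : GK i₀) ((hdat.ker _).2 σ.2)]
  refine Finset.sum_congr rfl fun l _ => ?_
  rw [hval]

end Pool.Agent.N848.SM
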