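import Pool.Agent.N848.SM.Sm
import Pool.Agent.N713.SM.Nz
import Pool.Agent.N678.SM.SupT
import Pool.Agent.R419.KF.NS
import Pool.Agent.N655.SM.Core

/-!
# Project SM: the Selmer group and the condition `Gd3`
-/

set_option autoImplicit false
set_option linter.unusedSectionVars false

open scoped Classical

namespace Pool.Agent.N848.SM

open Pool.Agent.N848.Sch
open Pool.Agent.Y692.QS (Ei w nr nr_one)
open Pool.Agent.Y715.T.Gi
open Pool.Agent.Y715.T.Rec (cs)
open Pool.Agent.Y715.T.RecG (Pq)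
open Pool.Agent.N883.FF (nq ClU ClP)
open Pool.Agent.R419.KF (wt el wt_ne)
open Pool.Agent.N713.SM (mq_mul nq_mul' lab_iff nq_one mq_one)

lemma lab_pow (f : Ei → ZMod 3) (hf : ∀ a b : Ei, (3 : Ei) ∣ a - 1 → (3 : Ei) ∣ b - 1 →
    f (a * b) = f a + f b) (h1 : f 1 = 0) {J : Type} {π : J → Ei} (hπ : ∀ j, (3 : Ei) ∣ π j - 1)
    (x : J → ℕ) (T : Finset J) : (3 : Ei) ∣ ∏ j ∈ T, π j ^ x j - 1 ∧
      f (∏ j ∈ T, π j ^ x j) = ∑ j ∈ T, (x j : ZMod 3) * f (π j) := by
  have hpow : ∀ (a : Ei) (n : ℕ), (3 : Ei) ∣ a - 1 → (3 : Ei) ∣ a ^ n - 1 ∧ f (a ^ n) = n * f a := by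
    intro a n ha
    induction n with
    | zero => rw [pow_zero, sub_self, h1, Nat.cast_zero, zero_mul]; exact ⟨dvd_zero _, rfl⟩
    | succ n ih =>
      obtain ⟨h2, h3⟩ := ih
      refine ⟨?_, ?_⟩
      · have e1 : a ^ (n + 1) - 1 = a ^ n * (a - 1) + (a ^ n - 1) := by ring
        rw [e1]
        exact dvd_add (ha.mul_left _) h2
      · rw [pow_succ, hf _ _ h2 ha, h3]
        push_cast
        ring
  induction T using Finset.induction_on with
  | empty => simp [h1]
  | insert j T hj ih =>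
    obtain ⟨h2, h3⟩ := ih
    obtain ⟨h4, h5⟩ := hpow (π j) (x j) (hπ j)
    rw [Finset.prod_insert hj, Finset.sum_insert hj]
    refine ⟨?_, ?_⟩
    · have e1 : π j ^ x j * ∏ j ∈ T, π j ^ x j - 1 =
          π j ^ x j * (∏ j ∈ T, π j ^ x j - 1) + (π j ^ x j - 1) := by ring
      rw [e1]
      exact dvd_add (h2.mul_left _) h4
    · rw [hf _ _ h4 h2, h3, h5]

section

variable {J : Type} [Fintype J] [DecidableEq J] {π : J → Ei} {e : J → ZMod 3}

/-- the condition modulo nine -/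
lemma nine_lab (hπ : PP π) (v : J → ZMod 3) : (9 : Ei) ∣ ∏ j, π j ^ (e j * v j).val - 1 ↔
    ∑ j, e j * nq (π j) * v j = 0 ∧ ∑ j, e j * mq (π j) * v j = 0 := by
  have h3 : ∀ j, (3 : Ei) ∣ π j - 1 := fun j => (hπ.pq j).three
  obtain ⟨h4, h5⟩ := lab_pow nq (fun a b => nq_mul') nq_one h3 (fun j => (e j * v j).val)
    Finset.univ
  obtain ⟨-, h6⟩ := lab_pow mq (fun a b => mq_mul) mq_one h3 (fun j => (e j * v j).val)
    Finset.univ
  rw [← lab_iff h4, h5, h6]
  have e1 : ∀ f : Ei → ZMod 3, ∑ j, (((e j * v j).val : ℕ) : ZMod 3) * f (π j) =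
      ∑ j, e j * f (π j) * v j := by
    intro f
    refine Finset.sum_congr rfl fun j _ => ?_
    rw [ZMod.natCast_zmod_val]
    ring
  rw [e1, e1]

/-- the label -/
lemma lbl_eq {ρ : Ei} (h : Pq ρ) (i : ZMod 3) (q : ℕ) :
    lbl i q ρ = i * nq ρ + (-(q : ZMod 3)) * mq ρ := by
  have h1 : cs ρ lam = - mq ρ := Pool.Agent.N678.SM.t_SUP ρ h
  unfold lbl
  rw [h1]
  ring

end

section

variable {M S : Finset Ei}

lemma pp_S (h : ClU M S) : PP (fun j : S => (j : Ei)) :=
  pp_of (fun j => h.1 j j.2) Subtype.val_injective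

lemma prod_wt (hM : M ⊆ S) : ∏ j : S, (j : Ei) ^ (wt M j).val = el M S := by
  rw [Finset.prod_coe_sort S (fun a : Ei => a ^ (wt M a).val)]
  unfold el
  have h2 : ∏ π ∈ M, π = ∏ π ∈ S, if π ∈ M then π else 1 := by
    rw [← Finset.prod_filter]
    refine Finset.prod_congr ?_ fun _ _ => rfl
    ext q
    rw [Finset.mem_filter]
    exact ⟨fun h => ⟨hM h, h⟩, fun h => h.2⟩
  rw [h2, ← Finset.prod_mul_distrib]
  refine Finset.prod_congr rfl fun a _ => ?_
  unfold wt
  by_cases h : a ∈ M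
  · rw [if_pos h, if_pos h]
    have : (2 : ZMod 3).val = 2 := by decide
    rw [this, pow_two]
  · rw [if_neg h, if_neg h]
    have : (1 : ZMod 3).val = 1 := by decide
    rw [this, pow_one, mul_one]

/-- the radicand of a pair -/
noncomputable def ra (i : ZMod 3) (q : ℕ) (D : Ei) : Ei := w ^ i.val * lam ^ q * D

lemma DD_el (hM : M ⊆ S) (i : ZMod 3) (q : ℕ) :
    DD i q (fun j : S => (j : Ei)) (fun j => wt M j) = ra i q (el M S) := by
  unfold DD ra
  rw [prod_wt hM]

/-- the solutions and the condition -/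
theorem sol_gd (h : ClU M S) (i : ZMod 3) (q : ℕ) :
    Sol i q (fun j : S => (j : Ei)) (fun j => wt M j) = {0} ↔
      Gd3 (i, -(q : ZMod 3)) M S := by
  have hs : ∀ f : Ei → ZMod 3, ∑ j : S, f j = ∑ a ∈ S, f a := fun f => Finset.sum_coe_sort S f
  have key : ∀ v : Ei → ZMod 3, (fun j : S => v j) ∈
      Sol i q (fun j : S => (j : Ei)) (fun j => wt M j) ↔
      (∀ π ∈ S, ∑ ρ ∈ S, wt M ρ * cs π ρ * (v ρ - v π) =
        (i * nq π + (-(q : ZMod 3)) * mq π) * v π) ∧
      ∑ π ∈ S, wt M π * nq π * v π = 0 ∧ ∑ π ∈ S, wt M π * mq π * v π = 0 := by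
    intro v
    unfold Sol
    rw [Set.mem_ofPred_eq, nine_lab (pp_S h), hs fun a => wt M a * nq a * v a,
      hs fun a => wt M a * mq a * v a]
    refine and_congr_left fun _ => ?_
    constructor
    · intro h1 π hπ
      have h2 := h1 ⟨π, hπ⟩
      rw [lbl_eq (h.1 π hπ)] at h2
      rw [← h2]
      exact (hs fun ρ => wt M ρ * cs π ρ * (v ρ - v π)).symm
    · rintro h1 ⟨π, hπ⟩
      rw [lbl_eq (h.1 π hπ)]
      exact (hs fun ρ => wt M ρ * cs π ρ * (v ρ - v π)).trans (h1 π hπ)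
  constructor
  · intro h1 v hv hn hm
    have h2 := (key v).2 ⟨hv, hn, hm⟩
    rw [h1, Set.mem_singleton_iff] at h2
    exact fun π hπ => congrFun h2 ⟨π, hπ⟩
  · intro h1
    ext v
    rw [Set.mem_singleton_iff]
    obtain ⟨v', hv'⟩ : ∃ v' : Ei → ZMod 3, (fun j : S => v' j) = v :=
      ⟨fun a => if ha : a ∈ S then v ⟨a, ha⟩ else 0, funext fun j => dif_pos j.2⟩
    rw [← hv', key]
    constructor
    · rintro ⟨h2, h3, h4⟩
      exact funext fun j => h1 v' h2 h3 h4 j j.2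
    · intro h2
      have h0 : ∀ a ∈ S, v' a = 0 := fun a ha => congrFun h2 ⟨a, ha⟩
      refine ⟨fun π hπ => ?_, ?_, ?_⟩
      · rw [h0 π hπ, mul_zero]
        exact Finset.sum_eq_zero fun ρ hρ => by rw [h0 ρ hρ, sub_zero, mul_zero]
      · exact Finset.sum_eq_zero fun ρ hρ => by rw [h0 ρ hρ, mul_zero]
      · exact Finset.sum_eq_zero fun ρ hρ => by rw [h0 ρ hρ, mul_zero]

/-- the class of `D` in its Selmer group -/
lemma mem_self (h : ClU M S) (h9 : (9 : Ei) ∣ el M S - 1) : el M S ∈ selm (el M S) := by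
  have hcf := Pool.Agent.R419.KF.cf_el h.1 h.2
  refine ⟨h9, hcf.2, fun p _ hd => hd, fun p hp h3 hd => ?_⟩
  obtain ⟨m, u, hu, hm⟩ : ∃ (m : ℕ) (u : Ei), ¬ p ∣ u ∧ el M S = p ^ m * u := by
    have h0 : el M S ≠ 0 := Pool.Agent.R419.KF.el_ne h.1 h.2
    obtain ⟨m, u, hu, hm⟩ := WfDvdMonoid.max_power_factor h0 hp.irreducible
    exact ⟨m, u, hu, hm⟩
  refine ⟨2, m, u ^ 3, u, ?_, fun h' => hu (hp.dvd_of_dvd_pow h'), ?_⟩
  · rw [hm]
    ring
  · rw [sub_self]
    exact dvd_zero _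

/-- the criterion -/
def Crit (D : Ei) : Prop := (∀ y : Ei, y ^ 3 ≠ D) ∧ selm D = {1}

lemma one_sol {J : Type} [Fintype J] [DecidableEq J] {π : J → Ei} {e : J → ZMod 3} (i : ZMod 3)
    (q : ℕ) : (0 : J → ZMod 3) ∈ Sol i q π e := by
  refine ⟨fun j => ?_, ?_⟩
  · simp
  · simp

/-- **The criterion in terms of pairs.** -/
theorem crit_iff (h : ClU M S) (i : ZMod 3) {q : ℕ} (hq : q < 3) :
    Crit (ra i q (el M S)) ↔
      Nz (i, -(q : ZMod 3)) M S ∧ Gd3 (i, -(q : ZMod 3)) M S := by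
  have hπ := pp_S h
  have he : ∀ j : S, wt M j ≠ 0 := fun j => wt_ne M j
  have hsel := selm_eq hπ he i q
  rw [DD_el h.2] at hsel
  have h1 : selm (ra i q (el M S)) = {1} ↔ Gd3 (i, -(q : ZMod 3)) M S := by
    rw [← sol_gd h, hsel]
    have e0 : elv (fun j : S => (j : Ei)) (fun j => wt M j) 0 = 1 := by
      unfold elv
      simp
    constructor
    · intro h2
      ext v
      rw [Set.mem_singleton_iff]
      constructor
      · intro hv
        have h3 : elv (fun j : S => (j : Ei)) (fun j => wt M j) v ∈ ({1} : Set Ei) := by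
          rw [← h2]
          exact ⟨v, hv, rfl⟩
        rw [Set.mem_singleton_iff, ← e0] at h3
        exact elv_inj hπ he h3
      · rintro rfl
        exact one_sol i q
    · intro h2
      rw [h2, Set.image_singleton, e0]
  unfold Crit
  rw [h1]
  constructor
  · rintro ⟨h2, h3⟩
    refine ⟨?_, h3⟩
    by_contra hN
    have hi0 : (i, -(q : ZMod 3)) = 0 := by
      by_contra hne
      exact hN (Or.inl hne)
    have hi : i = 0 := congrArg Prod.fst hi0
    have hq0 : q = 0 := by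
      have h4 : -(q : ZMod 3) = 0 := congrArg Prod.snd hi0
      rw [neg_eq_zero, ZMod.natCast_eq_zero_iff] at h4
      omega
    subst hi hq0
    have h9 : (9 : Ei) ∣ el M S - 1 := by
      by_contra h9
      exact hN (by
        rw [hi0]
        exact (Pool.Agent.N713.SM.t_NZ3.1 M S h).2 h9)
    have e1 : ra 0 0 (el M S) = el M S := by
      unfold ra
      simp
    have h4 := mem_self h h9
    have h5 := h1.2 h3
    rw [e1] at h5 h2
    rw [h5, Set.mem_singleton_iff] at h4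
    exact h2 1 (by rw [h4, one_pow])
  · rintro ⟨h2, h3⟩
    refine ⟨fun y hy => ?_, h3⟩
    -- a cube
    have hel3 : (3 : Ei) ∣ el M S - 1 := Pool.Agent.R419.KF.el_prm h.1 h.2
    have hcf : Pool.Agent.N655.SM.CF (ra i q (el M S)) :=
      (Pool.Agent.N655.SM.cf_mul (w_un.pow i.val) (k := q) (by omega) hel3).2
        (Pool.Agent.R419.KF.cf_el h.1 h.2).2
    have hyu : IsUnit y := hcf y ⟨1, by rw [mul_one, hy]⟩
    have hDu : IsUnit (w ^ i.val * lam ^ q * el M S) := by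
      have h5 : IsUnit (y ^ 3) := hyu.pow 3
      rw [hy] at h5
      exact h5
    have hel : el M S = 1 := unit_prm (isUnit_of_mul_isUnit_right hDu) hel3
    have hq0 : q = 0 := by
      by_contra hq0
      have h5 : IsUnit (lam ^ q) :=
        isUnit_of_mul_isUnit_right (isUnit_of_mul_isUnit_left hDu)
      exact prime_lam.not_isUnit (isUnit_of_dvd_unit (dvd_pow_self _ hq0) h5)
    obtain ⟨ε, n, hε, hn⟩ := Pool.Agent.Y715.T.Thr.unit_cases hyu
    have hi0 : i = 0 := by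
      have h5 : w ^ i.val = ε ^ 3 := by
        have h6 : w ^ i.val = y ^ 3 := by
          rw [hy]
          unfold ra
          rw [hel, hq0]
          simp
        rw [h6, hn, mul_pow, Pool.Agent.Y715.T.Rec.w_pow_cube, mul_one]
      apply w_one
      rcases hε with rfl | rfl
      · left
        rw [h5, one_pow]
      · right
        rw [h5]
        norm_num
    subst hi0 hq0
    have e1 : ((0 : ZMod 3), -((0 : ℕ) : ZMod 3)) = 0 := by simp
    rw [e1, Pool.Agent.N713.SM.t_NZ3.1 M S h, hel, sub_self] at h2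
    exact h2 (dvd_zero _)

end

end Pool.Agent.N848.SM
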