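import Pool.Agent.N848.SM.Stm
import Pool.Agent.N848.Sch.C2
import Pool.Agent.N883.FF.Sel

/-!
# Project SM: cubic characters of `ℚ(ω)` with local conditions, the general case

`D = ω ^ i λ ^ k ∏ π ^ (e π)`.
-/

set_option autoImplicit false
set_option linter.unusedSectionVars false

namespace Pool.Agent.N848.SM

open Pool.Agent.N848.Sch
open Pool.Agent.Y692.QS
open Pool.Agent.Y715.T.Gi Pool.Agent.Y715.T.Nr Pool.Agent.Y715.T.Red Pool.Agent.Y715.T.Df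
open Pool.Agent.Y715.T.Thr Pool.Agent.Y715.T.Sel
open Pool.Agent.Y715.T.Rec (cs)
open Pool.Agent.Y715.T.RecG (Pq)
open Pool.Agent.N883.FF (nq)

variable {i₀ : QB} {hi : i₀ ^ 2 + i₀ + 1 = 0}
  {J : Type} [Fintype J] [DecidableEq J] {π : J → Ei} {e : J → ZMod 3}

lemma w_un : IsUnit w := Pool.Agent.N883.FF.Sel.w_unit

lemma prod_ne (hπ : PP π) (f : J → ℕ) : ∏ j, π j ^ f j ≠ 0 :=
  Finset.prod_ne_zero_iff.2 fun j _ => pow_ne_zero _ (hπ.p0 j)

/-- the radicand -/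
noncomputable def DD (i : ZMod 3) (k : ℕ) (π : J → Ei) (e : J → ZMod 3) : Ei :=
  w ^ i.val * lam ^ k * ∏ j, π j ^ (e j).val

lemma DD_ne (hπ : PP π) (i : ZMod 3) (k : ℕ) (e : J → ZMod 3) : DD i k π e ≠ 0 :=
  mul_ne_zero (mul_ne_zero (pow_ne_zero _ w_un.ne_zero) (pow_ne_zero _ prime_lam.ne_zero))
    (prod_ne hπ _)

/-- **The place above three.** -/
theorem three_cube (hπ : PP π) {u : Ei} {g : ℕ} {x : J → ℕ} (hu : IsUnit u) {ψ : GK i₀ → ZMod 3}
    (hzh : Kc hi (u * lam ^ g * ∏ j, π j ^ x j) ψ) (ι₃ : QB →ₐ[ℚ] PadicAlgCl 3)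
    (h3 : ∀ (τ : Au 3) (σ : GK i₀), Cmp ι₃ τ σ → ψ σ = 0) :
    3 ∣ g ∧ (u = 1 ∨ u = -1) ∧ Kc hi (∏ j, π j ^ x j) ψ ∧ (9 : Ei) ∣ ∏ j, π j ^ x j - 1 := by
  have h0 := prod_ne hπ x
  obtain ⟨q, hq⟩ := hπ.prod_form x
  have hq' : ∏ j, π j ^ x j = 1 + 3 * q := by rw [← hq]; ring
  obtain ⟨s, hs⟩ := ex_root (ev i₀ hi (u * lam ^ g * ∏ j, π j ^ x j))
  have hv : ι₃ s ∈ Lf (ι₃ i₀) := by
    intro τ _ hτI
    obtain ⟨σ, hc⟩ := exists_cmp ι₃ τ hτI
    rw [hc, hzh s hs σ, h3 τ σ hc, ZMod.val_zero, pow_zero, one_mul]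
  obtain ⟨hg, hu1⟩ := gen (iota_sq hi ι₃) hu hv (z := 0) (by rw [norm_zero]; exact zero_le_one)
    (zero_mem _) (q := q) (g := g) (by
      rw [mul_zero, add_zero, mul_one, ← map_pow, hs, iota_ev, hq'])
  obtain ⟨g', hg'⟩ := id hg
  have hx : Kc hi (∏ j, π j ^ x j) ψ := by
    refine kc_unit h0 hu1 (kc_cancel (z' := lam ^ g') ?_ (pow_ne_zero _ prime_lam.ne_zero) ?_)
    · exact mul_ne_zero hu.ne_zero h0
    · have e1 : u * (∏ j, π j ^ x j) * (lam ^ g') ^ 3 = u * lam ^ g * ∏ j, π j ^ x j := by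
        rw [hg', ← pow_mul, mul_comm g' 3]
        ring
      rw [e1]
      exact hzh
  refine ⟨hg, hu1, hx, ?_⟩
  by_contra h9
  obtain ⟨τ, σ, hc, hne⟩ := exists_three (hπ.prod_form x) h9 hx ι₃
  exact hne (h3 τ σ hc)

lemma w_one {i : ZMod 3} (h : w ^ i.val = 1 ∨ w ^ i.val = -1) : i = 0 := by
  revert i
  decide

/-- the radicand is not a cube at the place above three -/
def NzD (i : ZMod 3) (k : ℕ) (π : J → Ei) (e : J → ZMod 3) : Prop :=
  i ≠ 0 ∨ (k : ZMod 3) ≠ 0 ∨ ¬ (9 : Ei) ∣ ∏ j, π j ^ (e j).val - 1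

/-- the character is not trivial at the place above three -/
theorem exists_three' (hπ : PP π) {i : ZMod 3} {k : ℕ} (hN : NzD i k π e)
    {χ : GK i₀ → ZMod 3} (hχ : Kc hi (DD i k π e) χ) (ι : QB →ₐ[ℚ] PadicAlgCl 3) :
    ∃ (τ : Au 3) (σ : GK i₀), Cmp ι τ σ ∧ χ σ ≠ 0 := by
  by_contra hcon
  push Not at hcon
  obtain ⟨h1, h2, -, h3⟩ := three_cube hπ (w_un.pow i.val) hχ ι hcon
  rcases hN with h | h | h
  · exact h (w_one h2)
  · exact h ((ZMod.natCast_eq_zero_iff _ _).2 h1)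
  · exact h h3

lemma DD_split (i : ZMod 3) (k : ℕ) (π : J → Ei) (e : J → ZMod 3) (j : J) :
    DD i k π e = (w ^ i.val * lam ^ k * ∏ l ∈ Finset.univ.erase j, π l ^ (e l).val) *
      π j ^ (e j).val := by
  unfold DD
  rw [← Finset.mul_prod_erase Finset.univ (fun l => π l ^ (e l).val) (Finset.mem_univ j)]
  ring

lemma not_dvd_unit {ρ : Ei} (h : Pq ρ) (i : ZMod 3) : ¬ ρ ∣ w ^ i.val := fun h1 =>
  h.prime.not_isUnit (isUnit_of_dvd_unit h1 (w_un.pow _))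

lemma not_dvd_lam {ρ : Ei} (h : Pq ρ) (k : ℕ) : ¬ ρ ∣ lam ^ k := fun h1 =>
  pq_not_lam h (h.prime.dvd_of_dvd_pow h1)

lemma not_dvd_DD (hπ : PP π) (i : ZMod 3) (k : ℕ) (f : J → ℕ) (j : J) :
    ¬ π j ∣ w ^ i.val * lam ^ k * ∏ l ∈ Finset.univ.erase j, π l ^ f l := by
  rw [(hπ.pq j).prime.dvd_mul, (hπ.pq j).prime.dvd_mul]
  push Not
  exact ⟨⟨not_dvd_unit (hπ.pq j) i, not_dvd_lam (hπ.pq j) k⟩, hπ.not_dvd_prod j f⟩

/-- the value on a generator of the ramification -/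
lemma ram_DD (hπ : PP π) {i : ZMod 3} {k : ℕ} {χ : GK i₀ → ZMod 3} (hχ : Kc hi (DD i k π e) χ)
    (j : J) {p : ℕ} [Fact p.Prime] (hp3 : p ≠ 3)
    (ι : QB →ₐ[ℚ] PadicAlgCl p) (hl : ‖ι (ev i₀ hi (π j))‖ < 1) {τ : Au p} {σ : GK i₀}
    (hc : Cmp ι τ σ) (hτ : Inert τ)
    {c : ZMod 3} (hs : ∀ s : QB, s ^ 3 = ev i₀ hi (π j) → σ s = i₀ ^ c.val * s) :
    χ σ = e j * c := by
  have := ram_exp' (x := (e j).val) (hπ.pq j).prime
    (not_dvd_DD hπ i k (fun l => (e l).val) j) (by rw [← DD_split i k π e j]; exact hχ)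
    hp3 ι hl hc hτ hs
  rw [this, ZMod.natCast_zmod_val]

/-- the label of the unit and of `λ` -/
noncomputable def lbl (i : ZMod 3) (k : ℕ) (ρ : Ei) : ZMod 3 := i * nq ρ + k * cs ρ lam

/-- the solutions of the system -/
def Sol (i : ZMod 3) (k : ℕ) (π : J → Ei) (e : J → ZMod 3) : Set (J → ZMod 3) :=
  {v | (∀ j, ∑ l, e l * cs (π j) (π l) * (v l - v j) = lbl i k (π j) * v j) ∧
    (9 : Ei) ∣ ∏ j, π j ^ (e j * v j).val - 1}

/-- **The vector of a cubic character with local conditions.** -/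
theorem kvecM (hπ : PP π) (he : ∀ j, e j ≠ 0) {i : ZMod 3} {k : ℕ}
    {χ : GK i₀ → ZMod 3} (hχ : Kc hi (DD i k π e) χ)
    {ι₃ : QB →ₐ[ℚ] PadicAlgCl 3} {ψ : GK i₀ → ZMod 3} (h : LCond hi π χ ι₃ ψ) :
    ∃ v ∈ Sol i k π e, Kc hi (∏ j, π j ^ (e j * v j).val) ψ := by
  obtain ⟨hlc, hm, h1, h2, h3⟩ := h
  obtain ⟨z, hz, hzh⟩ := kum hi ψ hlc hm
  have hsupp : ∀ ρ : Ei, Prime ρ → ρ ∣ z → Associated ρ lam ∨ ∃ j, Associated ρ (π j) := by
    intro ρ hρ hd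
    by_contra hcon
    push Not at hcon
    obtain ⟨p, hp, ι, hl⟩ := exists_emb hi hρ
    have hp3 := odd_of hi ι hρ hl hcon.1
    refine not_dvd_of_unr hz hzh hp3 ι hρ hl (h1 p ι hp3 fun j hj => hcon.2 j ?_) hd
    rw [iota_ev] at hl hj
    exact (hρ.dvd_prime_iff_associated (hπ.pq j).prime).1
      ((dvd_iff (iota_sq hi ι) hρ hl _).2 hj)
  obtain ⟨u, g, x, hu, ez⟩ := fac (π := π) z hz.1 hsupp
  rw [ez] at hzh
  obtain ⟨-, -, hx, hx9⟩ := three_cube hπ hu hzh ι₃ h3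
  have h0 := prod_ne hπ
  have hesq : ∀ j, e j * e j = 1 := by
    intro j
    have h := he j
    generalize e j = c at *
    revert c
    decide
  set v : J → ZMod 3 := fun j => x j * e j with hv
  have hxv : ∀ j, (x j : ZMod 3) = e j * v j := by
    intro j
    have := hesq j
    calc (x j : ZMod 3) = x j * (e j * e j) := by rw [this, mul_one]
      _ = _ := by rw [hv]; ring
  have hx' : Kc hi (∏ j, π j ^ (e j * v j).val) ψ := by
    refine kc_exp hπ.p0 (fun j => ?_) hx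
    rw [hxv j, ZMod.natCast_zmod_val]
  refine ⟨v, ⟨?_, ?_⟩, hx'⟩
  · intro j
    obtain ⟨p, hp, ι, hl⟩ := exists_emb hi (hπ.pq j).prime
    have hp3 := odd_of hi ι (hπ.pq j).prime hl (pq_not_assoc (hπ.pq j))
    obtain ⟨t, ht⟩ := h2 j p ι hp3 hl
    obtain ⟨τ₁, σ₁, c, hc₁, hτ₁, hc0, hs₁⟩ := exists_ram (hπ.pq j).prime hp3 ι hl
    have hψ₁ : ψ σ₁ = x j * c := by
      refine ram_exp' (hπ.pq j).prime (hπ.not_dvd_prod j x) ?_ hp3 ι hl hc₁ hτ₁ hs₁
      have e1 : (∏ i ∈ Finset.univ.erase j, π i ^ x i) * π j ^ x j = ∏ i, π i ^ x i := by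
        rw [← Finset.mul_prod_erase Finset.univ (fun i => π i ^ x i) (Finset.mem_univ j)]
        ring
      rw [e1]
      exact hx
    have hχ₁ : χ σ₁ = e j * c := ram_DD hπ hχ j hp3 ι hl hc₁ hτ₁ hs₁
    have htv : t = v j := by
      have h5 := ht τ₁ σ₁ hc₁
      rw [hψ₁, hχ₁] at h5
      have h6 := hesq j
      have h7 : (x j : ZMod 3) = t * e j := by
        have h8 : ∀ a b d : ZMod 3, d ≠ 0 → a * d = b * d → a = b := by decide
        exact h8 _ _ c hc0 (by rw [h5]; ring)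
      rw [hv]
      show t = x j * e j
      rw [h7, mul_assoc, h6, mul_one]
    -- the character that is trivial at `π j`
    set n : ℕ := (-v j).val with hn
    have hn3 : (n : ZMod 3) = -v j := ZMod.natCast_zmod_val _
    have hy := kc_mul (h0 x) (pow_ne_zero n (DD_ne hπ i k e)) hx (kc_pow (DD_ne hπ i k e) hχ n)
    have hy1 : ∀ (τ : Au p) (σ : GK i₀), Cmp ι τ σ → ψ σ + n * χ σ = 0 := by
      intro τ σ hcc
      rw [ht τ σ hcc, htv, hn3]
      ring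
    set y : J → ℕ := fun i => x i + (e i).val * n with hydef
    have ey : (∏ i, π i ^ x i) * (DD i k π e) ^ n =
        (w ^ i.val * lam ^ k) ^ n * ∏ i, π i ^ y i := by
      unfold DD
      rw [mul_pow, ← Finset.prod_pow]
      have e1 : ∏ i, π i ^ y i = (∏ i, π i ^ x i) * ∏ i, (π i ^ (e i).val) ^ n := by
        rw [← Finset.prod_mul_distrib]
        refine Finset.prod_congr rfl fun i _ => ?_
        rw [hydef, ← pow_mul, ← pow_add]
      rw [e1]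
      ring
    rw [ey] at hy
    have hycast : ∀ i, (y i : ZMod 3) = e i * (v i - v j) := by
      intro i
      rw [hydef]
      push_cast
      rw [hn3, hxv i, ZMod.natCast_zmod_val]
      ring
    obtain ⟨l, hl3⟩ : 3 ∣ y j := by
      rw [← ZMod.natCast_eq_zero_iff, hycast j, sub_self, mul_zero]
    have hpj := (hπ.pq j).prime
    have h9 := (hπ.pq j).norm
    have hw1 : ¬ π j ∣ w ^ i.val * lam ^ k := by
      rw [hpj.dvd_mul]
      push Not
      exact ⟨not_dvd_unit (hπ.pq j) i, not_dvd_lam (hπ.pq j) k⟩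
    have hwn : ¬ π j ∣ (w ^ i.val * lam ^ k) ^ n := fun h => hw1 (hpj.dvd_of_dvd_pow h)
    have hnd : ¬ π j ∣ (w ^ i.val * lam ^ k) ^ n * ∏ l ∈ Finset.univ.erase j, π l ^ y l := by
      rw [hpj.dvd_mul]
      push Not
      exact ⟨hwn, hπ.not_dvd_prod j y⟩
    have hW0 : (w ^ i.val * lam ^ k) ^ n * ∏ l ∈ Finset.univ.erase j, π l ^ y l ≠ 0 := by
      intro h
      rw [h] at hnd
      exact hnd (dvd_zero _)
    have hW : Kc hi ((w ^ i.val * lam ^ k) ^ n * ∏ l ∈ Finset.univ.erase j, π l ^ y l)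
        (fun σ => ψ σ + n * χ σ) := by
      refine kc_cancel (z' := π j ^ l) hW0 (pow_ne_zero _ (hπ.p0 j)) ?_
      have e1 : ((w ^ i.val * lam ^ k) ^ n * ∏ i ∈ Finset.univ.erase j, π i ^ y i) *
          (π j ^ l) ^ 3 = (w ^ i.val * lam ^ k) ^ n * ∏ i, π i ^ y i := by
        rw [← Finset.mul_prod_erase Finset.univ (fun i => π i ^ y i) (Finset.mem_univ j),
          ← pow_mul, mul_comm l 3, ← hl3]
        ring
      rw [e1]
      exact hy
    have hcube := resid_kc hW hp3 ι hpj hl hy1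
    have hcs := (Pool.Agent.Y715.T.RecG.cs_zero_iff hpj h9 hnd).2 hcube
    have hnd1 : ∀ i ∈ Finset.univ.erase j, ¬ π j ∣ π i := fun i hij =>
      hπ.nd i j (Finset.ne_of_mem_erase hij)
    rw [Pool.Agent.Y715.T.RecG.cs_mul hpj h9 hwn (hπ.not_dvd_prod j y),
      Pool.Agent.Y715.T.RecG.cs_pow hpj h9 hw1,
      Pool.Agent.Y715.T.RecG.cs_mul hpj h9 (not_dvd_unit (hπ.pq j) i) (not_dvd_lam (hπ.pq j) k),
      Pool.Agent.Y715.T.RecG.cs_pow hpj h9 (fun h => hpj.not_isUnit (isUnit_of_dvd_unit h w_un)),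
      Pool.Agent.Y715.T.RecG.cs_pow hpj h9 (pq_not_lam (hπ.pq j)),
      Pool.Agent.N883.FF.Sel.cs_w (hπ.pq j),
      Pool.Agent.Y715.T.RecG.cs_prod hpj h9 _ _
      (fun i hij h1 => hnd1 i hij (hpj.dvd_of_dvd_pow h1)), ZMod.natCast_zmod_val, ZMod.natCast_zmod_val] at hcs
    rw [← Finset.add_sum_erase Finset.univ _ (Finset.mem_univ j), sub_self, mul_zero, zero_add]
    have e2 : ∑ i ∈ Finset.univ.erase j, e i * cs (π j) (π i) * (v i - v j) =
        ∑ i ∈ Finset.univ.erase j, cs (π j) (π i ^ y i) := by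
      refine Finset.sum_congr rfl fun i hij => ?_
      rw [Pool.Agent.Y715.T.RecG.cs_pow hpj h9 (hnd1 i hij), hycast i]
      ring
    rw [e2]
    unfold lbl
    linear_combination hcs
  · by_contra h9
    obtain ⟨τ, σ, hc, hne⟩ := exists_three (hπ.prod_form _) h9 hx' ι₃
    exact hne (h3 τ σ hc)

/-- the number of the characters -/
theorem ucardM (hπ : PP π) (he : ∀ j, e j ≠ 0) {i : ZMod 3} {k : ℕ}
    {χ : GK i₀ → ZMod 3} (hχ : Kc hi (DD i k π e) χ) {ι₃ : QB →ₐ[ℚ] PadicAlgCl 3}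
    {A : Type} [Fintype A] (Ψ : A → GK i₀ → ZMod 3) (hinj : Function.Injective Ψ)
    (h : ∀ a, LCond hi π χ ι₃ (Ψ a)) : Fintype.card A ≤ (Sol i k π e).ncard := by
  choose v hv hvk using fun a => kvecM hπ he hχ (h a)
  have hf : Function.Injective v := by
    intro a b hab
    apply hinj
    have h1 := hvk a
    rw [hab] at h1
    exact funext fun σ => kc_uniq (prod_ne hπ _) h1 (hvk b) σ
  have h1 : Set.range v ⊆ Sol i k π e := by
    rintro _ ⟨a, rfl⟩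
    exact hv a
  have h2 := Set.ncard_le_ncard h1 (Set.toFinite _)
  rwa [Set.ncard_range_of_injective hf, Nat.card_eq_fintype_card] at h2

end Pool.Agent.N848.SM
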