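import Pool.Agent.N848.SM.Kv
import Pool.Agent.N848.Sch.K

/-!
# Project SM: the rank theorem, the general case
-/

set_option autoImplicit false
set_option linter.unusedSectionVars false

namespace Pool.Agent.N848.SM

open Pool.Agent.N848.Sch
open Pool.Agent.Y692.QS hiding rho
open Pool.Agent.Y715.T.Gi Pool.Agent.Y715.T.Nr Pool.Agent.Y715.T.Red Pool.Agent.Y715.T.Df
open Pool.Agent.Y715.T.Sel
open Pool.Agent.Y715.T.Rec (cs)
open Pool.Agent.Y715.T.RecG (Pq)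

variable {i₀ : QB} {k : ℕ} {a : GK i₀ → ZMod (3 ^ (k + 1))} {t : GK i₀} {r : ℤ}
  {ζ : Om} {i : ZMod 3} {q : ℕ}

section

variable (hi : i₀ ^ 2 + i₀ + 1 = 0) (hζ : IsPrimitiveRoot ζ (3 ^ (k + 1)))
  (ha : ∀ σ τ, a (σ * τ) = a σ + a τ) (hlc : IsLocallyConstant a) (ht : a t = 1)
  {J : Type} [Fintype J] [DecidableEq J] {π : J → Ei} {e : J → ZMod 3}
  (hπ : PP π) (he : ∀ j, e j ≠ 0)
  (hχ : Kc hi (DD i q π e) (fun σ => pr k (a σ)))
  (HU : ∀ (p : ℕ) [Fact p.Prime] (ι : QB →ₐ[ℚ] PadicAlgCl p), p ≠ 3 →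
    (∀ j, ¬ ‖ι (ev i₀ hi (π j))‖ < 1) → ∀ (τ : Au p) (σ : GK i₀), Cmp ι τ σ → Inert τ → a σ = 0)

include hζ ha hπ he hχ HU in
/-- the residue satisfies the local conditions -/
theorem lcondM {j : ZMod (3 ^ (k + 1))} (hj : j ≠ 0) {ι₃ : QB →ₐ[ℚ] PadicAlgCl 3}
    {c : GK i₀ → Om} (hc : c ∈ WW ζ a r ι₃ j) (hle : ∀ g, ‖c g‖ ≤ 1) {ψ : GK i₀ → ZMod 3}
    (hψ : IsRes c ψ) (hψlc : IsLocallyConstant ψ) (hψm : ∀ g h, ψ (g * h) = ψ g + ψ h) :
    LCond hi π (fun σ => pr k (a σ)) ι₃ ψ := by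
  obtain ⟨hcc, hcF, hin0, hdec⟩ := hc
  refine ⟨hψlc, hψm, ?_, ?_, ?_⟩
  · intro p _ ι hp hnd τ σ hcmp hin
    exact hψ.zero (hin0 p ι hp τ σ hcmp hin (HU p ι hp hnd τ σ hcmp hin))
  · intro j' p _ ι hp hsm
    obtain ⟨τ₁, σ₁, c₁, hc₁, hτ₁, hc0, hs₁⟩ := exists_ram (hi := hi) (hπ.pq j').prime hp ι hsm
    have hχ₁ : pr k (a σ₁) = e j' * c₁ := ram_DD hπ hχ j' hp ι hsm hc₁ hτ₁ hs₁
    have hχ0 : pr k (a σ₁) ≠ 0 := by
      rw [hχ₁]
      exact mul_ne_zero (he j') hc0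
    have hunit := unit_of hχ0
    obtain ⟨hne, z', hz'⟩ := dec_ram hζ ha hj hcc.mul hp (ι := ι)
      (fun τ σ hcmp hin h0 => hin0 p ι hp τ σ hcmp hin h0) hc₁ hτ₁ hunit
    obtain ⟨n, hn⟩ := hψ.ex σ₁
    have hψ₁ := hψ.val σ₁ n hn
    refine ⟨(pr k (a σ₁))⁻¹ * ψ σ₁, fun τ σ hcmp => ?_⟩
    have h5 := res_ram (c := c) hi hζ hle hp hc₁ hτ₁ hunit hne (z := z') hz' hcmp
    have h6 := norm_mul_sub_lt h5 hn
    have h7 := hψ.val σ _ h6
    rw [h7, hψ₁]
    push_cast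
    have h8 : (((a σ * (↑hunit.unit⁻¹ : ZMod (3 ^ (k + 1)))).val : ℕ) : ZMod 3) =
        pr k (a σ) * (pr k (a σ₁))⁻¹ := by
      have e1 : ∀ x : ZMod (3 ^ (k + 1)), ((x.val : ℕ) : ZMod 3) = pr k x := by
        intro x
        conv_rhs => rw [← ZMod.natCast_zmod_val x, map_natCast]
      rw [e1, map_mul]
      congr 1
      have e2 : pr k (↑hunit.unit⁻¹ : ZMod (3 ^ (k + 1))) * pr k (a σ₁) = 1 := by
        rw [← map_mul, hunit.val_inv_mul, map_one]
      exact eq_inv_of_mul_eq_one_left e2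
    rw [h8]
    ring
  · intro τ σ hcmp
    exact hψ.zero (hdec τ σ hcmp)

include hi hζ ha hπ he hχ HU in
/-- the dimension of the space of the normalized cocycles -/
theorem dimM {j : ZMod (3 ^ (k + 1))} (hj : j ≠ 0) {ι₃ : QB →ₐ[ℚ] PadicAlgCl 3}
    {m : ℕ} (c : Fin m → (GK i₀ → Om)) (hc : ∀ l, c l ∈ WW ζ a r ι₃ j)
    (hind : LinearIndependent (Fz ζ) c) : 3 ^ m ≤ (Sol i q π e).ncard := by
  obtain ⟨w, g, h1, h2, h3', h4⟩ := ortho m (WW ζ a r ι₃ j)
    (fun f hf => ⟨hf.1.cont, hf.2.1⟩) c hc hind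
  have hmem : ∀ b : Fin m → ZMod 3,
      (fun x => ∑ i, ((b i).val : Om) * w i x) ∈ WW ζ a r ι₃ j := by
    intro b
    have e1 : (fun x => ∑ i, ((b i).val : Om) * w i x) =
        ∑ i, (((b i).val : ℕ) : Fz ζ) • w i := by
      funext x
      rw [Finset.sum_apply]
      refine Finset.sum_congr rfl fun i _ => ?_
      show _ = (((((b i).val : ℕ) : Fz ζ)) : Om) * w i x
      push_cast
      rfl
    rw [e1]
    exact Submodule.sum_mem _ fun i _ => Submodule.smul_mem _ _ (h1 i)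
  have hle : ∀ (b : Fin m → ZMod 3) (x : GK i₀), ‖∑ i, ((b i).val : Om) * w i x‖ ≤ 1 := by
    intro b x
    refine IsUltrametricDist.norm_sum_le_of_forall_le_of_nonneg zero_le_one fun i _ => ?_
    rw [norm_mul]
    exact mul_le_one₀ (IsUltrametricDist.norm_natCast_le_one _ _) (norm_nonneg _) (h2 i x)
  choose Ψ hΨ1 hΨ2 hΨ3 using fun b : Fin m → ZMod 3 => residue_one (RF_Fz hζ)
    (fun g => rho_sub_lt (a := a) (r := r) hi hζ j g) (hmem b).1 (hmem b).2.1 (hle b)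
  have hinj := res_inj h3' h4 hΨ1
  have hlc := fun b => lcondM (r := r) hi hζ ha hπ he hχ HU hj (hmem b) (hle b) (hΨ1 b)
    (hΨ2 b) (hΨ3 b)
  have h5 := ucardM hπ he hχ Ψ hinj hlc
  rwa [Fintype.card_fun, ZMod.card, Fintype.card_fin] at h5

variable
  {m : ℕ} {c : Fin m → GK i₀ → ℤ_[3]}
  (hct : ∀ l σ τ, a σ = 0 → a τ = 0 → om (c l (σ * τ)) = om (c l σ) + E r σ * om (c l τ))
  (hcc : ∀ l, Continuous (c l))
  (H1 : ∀ l (p : ℕ) [Fact p.Prime] (ι : QB →ₐ[ℚ] PadicAlgCl p), p ≠ 3 →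
    ∀ (τ : Au p) (σ : GK i₀), Cmp ι τ σ → Inert τ → a σ = 0 → om (c l σ) = 0)
  (H3 : ∀ l (ι : QB →ₐ[ℚ] PadicAlgCl 3), ∃ y : ℤ_[3], ∀ (τ : Au 3) (σ : GK i₀), Cmp ι τ σ →
    a σ = 0 → om (c l σ) = (E r σ - 1) * om y) (hr : r ≠ 0)

include hi hζ ha hlc ht hπ he hχ HU hct hcc H1 H3 hr in
/-- **The rank theorem.** -/
theorem rankM {d : ℕ} (hd : (Sol i q π e).ncard ≤ 3 ^ d)
    (hm : (3 ^ (k + 1) - 1) * d < m) : ∃ X : Fin m → ℤ_[3], (∃ l, X l ≠ 0) ∧
      ∃ y : ℤ_[3], ∀ g, a g = 0 →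
        ∑ l, X l * c l g = ((((cyc i₀ g) ^ r : ℤ_[3]ˣ) : ℤ_[3]) - 1) * y := by
  obtain ⟨ι₃⟩ := exists_emb3
  have hF : ∀ l g, om (c l g) ∈ Fz ζ := fun l g => om_mem _ _
  have hcc' : ∀ l, Continuous fun g => om (c l g) := fun l => om_cont.comp (hcc l)
  choose z hzF hz using fun (l : Fin m) (j : ZMod (3 ^ (k + 1))) =>
    dec_three (ct := fun g => om (c l g)) hi hζ ha ht (hct l) (H3 l) hr j ι₃
  set c' : Fin m → ZMod (3 ^ (k + 1)) → GK i₀ → Om := fun l j g =>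
    cj ζ a t r (fun g => om (c l g)) j g - (rho ζ a r j g - 1) * z l j with hc'
  have hcW : ∀ l j, c' l j ∈ WW ζ a r ι₃ j := by
    intro l j
    have hcoc : Coc (rho ζ a r j) (cj ζ a t r (fun g => om (c l g)) j) :=
      ⟨cj_cont hlc (hcc' l) j, cj_mul hζ.pow_eq_one ha ht (hct l) j⟩
    refine ⟨hcoc.sub (rho_mul hζ.pow_eq_one ha j) (rho_cont hlc j) (z l j), ?_, ?_, ?_⟩
    · exact fun g => sub_mem (cj_mem (hF l) j g)
        (mul_mem (sub_mem (rho_mem j g) (one_mem _)) (hzF l j))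
    · intro p _ ι hp τ σ hcmp hin h0
      have e1 : rho ζ a r j σ = 1 := by
        rw [rho_inert hp hcmp hin, h0, mul_zero, neg_zero, zt_zero]
      show cj ζ a t r (fun g => om (c l g)) j σ - (rho ζ a r j σ - 1) * z l j = 0
      rw [cj_inert ha (H1 l) hp hcmp hin h0, e1, sub_self, zero_mul, sub_zero]
    · intro τ σ hcmp
      show cj ζ a t r (fun g => om (c l g)) j σ - (rho ζ a r j σ - 1) * z l j = 0
      rw [hz l j τ σ hcmp, sub_self]
  choose z0 hz0 using fun l : Fin m => claim_zero (ct := fun g => om (c l g)) hi hζ ha hlc ht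
    (hct l) (hcc' l) (hF l) (H1 l) (H3 l) hr
  -- the spans
  set S : ZMod (3 ^ (k + 1)) → Submodule (Fz ζ) (GK i₀ → Om) := fun j =>
    Submodule.span (Fz ζ) (Set.range fun l => c' l j) with hS
  have hSfin : ∀ j, Module.Finite (Fz ζ) (S j) := fun j =>
    Module.Finite.span_of_finite _ (Set.finite_range _)
  have hSd : ∀ j, j ≠ 0 → Module.finrank (Fz ζ) (S j) ≤ d := by
    intro j hj
    have hSW : S j ≤ WW ζ a r ι₃ j := by
      rw [Submodule.span_le]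
      rintro _ ⟨l, rfl⟩
      exact hcW l j
    have hind : LinearIndependent (Fz ζ)
        (fun i => ((Module.finBasis (Fz ζ) (S j) i : S j) : GK i₀ → Om)) :=
      (Module.finBasis (Fz ζ) (S j)).linearIndependent.map' (S j).subtype (Submodule.ker_subtype _)
    have h5 := (dimM (r := r) hi hζ ha hπ he hχ HU hj _
      (fun i => hSW (Module.finBasis (Fz ζ) (S j) i).2) hind).trans hd
    exact (Nat.pow_le_pow_iff_right (by norm_num : 1 < 3)).1 h5
  set Φ : (Fin m → Fz ζ) →ₗ[Fz ζ] ((j : {j : ZMod (3 ^ (k + 1)) // j ≠ 0}) → S j.1) :=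
    LinearMap.pi fun j => Fintype.linearCombination (Fz ζ)
      (fun l => (⟨c' l j.1, Submodule.subset_span ⟨l, rfl⟩⟩ : S j.1)) with hΦ
  have hlt : Module.finrank (Fz ζ) ((j : {j : ZMod (3 ^ (k + 1)) // j ≠ 0}) → S j.1) <
      Module.finrank (Fz ζ) (Fin m → Fz ζ) := by
    rw [Module.finrank_pi_fintype, Module.finrank_fin_fun]
    refine lt_of_le_of_lt (Finset.sum_le_card_nsmul _ _ d fun j _ => hSd j.1 j.2) ?_
    rw [smul_eq_mul, Finset.card_univ, Fintype.card_subtype_compl, ZMod.card,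
      Fintype.card_subtype_eq]
    exact hm
  obtain ⟨x, hx, hx0⟩ := Submodule.exists_mem_ne_zero_of_ne_bot
    (LinearMap.ker_ne_bot_of_finrank_lt (f := Φ) hlt)
  have hx' : ∀ j, j ≠ 0 → ∀ g, ∑ l, (x l : Om) * c' l j g = 0 := by
    intro j hj g
    have h5 := congrFun (LinearMap.mem_ker.1 hx) ⟨j, hj⟩
    rw [hΦ, LinearMap.pi_apply, Fintype.linearCombination_apply] at h5
    have h6 : _ = (0 : Om) := congrFun (congrArg Subtype.val h5) g
    refine Eq.trans ?_ h6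
    simp only [Submodule.coe_sum, Submodule.coe_smul, Finset.sum_apply, Pi.smul_apply]
    rfl
  have hall : ∀ j : ZMod (3 ^ (k + 1)), ∃ Z : Om, ∀ g,
      ∑ l, (x l : Om) * cj ζ a t r (fun g => om (c l g)) j g = (rho ζ a r j g - 1) * Z := by
    intro j
    rcases eq_or_ne j 0 with rfl | hj
    · refine ⟨∑ l, (x l : Om) * z0 l, fun g => ?_⟩
      rw [Finset.mul_sum]
      refine Finset.sum_congr rfl fun l _ => ?_
      rw [hz0]
      ring
    · refine ⟨∑ l, (x l : Om) * z l j, fun g => ?_⟩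
      have h5 := hx' j hj g
      simp only [hc', mul_sub] at h5
      rw [Finset.sum_sub_distrib, sub_eq_zero] at h5
      rw [h5, Finset.mul_sum]
      refine Finset.sum_congr rfl fun l _ => ?_
      ring
  choose Z hZ using hall
  have hn0 : ((3 ^ (k + 1) : ℕ) : Om) ≠ 0 := by
    have : (3 ^ (k + 1) : ℕ) ≠ 0 := by positivity
    exact_mod_cast this
  have hmain : ∀ g, a g = 0 → ((3 ^ (k + 1) : ℕ) : Om) * ∑ l, (x l : Om) * om (c l g) =
      (E r g - 1) * ∑ j, Z j := by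
    intro g hg
    rw [Finset.mul_sum, Finset.mul_sum]
    calc ∑ l, ((3 ^ (k + 1) : ℕ) : Om) * ((x l : Om) * om (c l g)) =
        ∑ l, ∑ j, (x l : Om) * cj ζ a t r (fun g => om (c l g)) j g := by
          refine Finset.sum_congr rfl fun l _ => ?_
          rw [← Finset.mul_sum, cj_sum hζ hg]
          ring
      _ = ∑ j, ∑ l, (x l : Om) * cj ζ a t r (fun g => om (c l g)) j g := Finset.sum_comm
      _ = ∑ j, (E r g - 1) * Z j := by
          refine Finset.sum_congr rfl fun j _ => ?_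
          rw [hZ j g]
          unfold rho
          rw [hg, mul_zero, neg_zero, zt_zero, one_mul]
  choose y hy using fun l => H3 l ι₃
  obtain ⟨τ, σ, hcmp, hE⟩ := exists_E_ne hi ι₃ hr (n := 3 ^ (k + 1)) (by positivity)
  have haσ : a (σ ^ 3 ^ (k + 1)) = 0 := by rw [a_pow ha, CharP.cast_eq_zero, zero_mul]
  have h4 := hmain _ haσ
  have h5 : ((3 ^ (k + 1) : ℕ) : Om) * ∑ l, (x l : Om) * om (y l) = ∑ j, Z j := by
    apply mul_left_cancel₀ (sub_ne_zero.2 hE)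
    rw [← h4, ← mul_assoc, mul_comm (E r (σ ^ 3 ^ (k + 1)) - 1), mul_assoc, Finset.mul_sum]
    congr 1
    refine Finset.sum_congr rfl fun l _ => ?_
    rw [hy l _ _ (cmp_pow hcmp _) haσ]
    ring
  set b : Fin m → GK i₀ → ℤ_[3] := fun l g =>
    c l g - ((((cyc i₀ g) ^ r : ℤ_[3]ˣ) : ℤ_[3]) - 1) * y l with hb
  have hb0 : ∀ g, a g = 0 → ∑ l, (x l : Om) * om (b l g) = 0 := by
    intro g hg
    have h6 := hmain g hg
    rw [← h5] at h6
    have h7 : ((3 ^ (k + 1) : ℕ) : Om) * ∑ l, (x l : Om) * om (b l g) = 0 := by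
      have e1 : ∀ l, om (b l g) = om (c l g) - (E r g - 1) * om (y l) := by
        intro l
        rw [hb]
        show om (_ - _) = _
        rw [om_sub, om_mul, om_sub, om_one]
        rfl
      have e2 : ∑ l, (x l : Om) * om (b l g) =
          ∑ l, (x l : Om) * om (c l g) - (E r g - 1) * ∑ l, (x l : Om) * om (y l) := by
        rw [Finset.mul_sum, ← Finset.sum_sub_distrib]
        refine Finset.sum_congr rfl fun l _ => ?_
        rw [e1]
        ring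
      rw [e2]
      linear_combination h6
    exact (mul_eq_zero.1 h7).resolve_left hn0
  obtain ⟨l₀, hl₀⟩ := Function.ne_iff.1 hx0
  have hl₀' : (x l₀ : Om) ≠ 0 := by
    intro h
    exact hl₀ (Subtype.ext h)
  obtain ⟨f, hf⟩ := exists_fun hl₀'
  obtain ⟨N, X, hX⟩ := exists_scale fun l => f (x l : Om)
  have h3N : (3 : ℚ_[3]) ^ N ≠ 0 := pow_ne_zero _ (by norm_num)
  refine ⟨X, ⟨l₀, fun h => ?_⟩, ∑ l, X l * y l, fun g hg => ?_⟩
  · have h6 := hX l₀
    rw [h, PadicInt.coe_zero] at h6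
    exact (mul_ne_zero h3N hf) h6.symm
  · have h6 : ∑ l, X l * b l g = 0 := by
      apply Subtype.ext
      rw [PadicInt.coe_zero]
      have h7 := congrArg f (hb0 g hg)
      rw [map_sum, map_zero] at h7
      have h8 : ∀ l, f ((x l : Om) * om (b l g)) = ((b l g : ℤ_[3]) : ℚ_[3]) * f (x l : Om) := by
        intro l
        have e1 : (x l : Om) * om (b l g) = ((b l g : ℤ_[3]) : ℚ_[3]) • (x l : Om) := by
          rw [Algebra.smul_def, mul_comm]
          rfl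
        rw [e1, map_smul, smul_eq_mul]
      have h9 : ((∑ l, X l * b l g : ℤ_[3]) : ℚ_[3]) = 3 ^ N * ∑ l, f ((x l : Om) * om (b l g)) := by
        rw [Finset.mul_sum, PadicInt.coe_sum]
        refine Finset.sum_congr rfl fun l _ => ?_
        rw [PadicInt.coe_mul, h8, hX]
        ring
      rw [h7, mul_zero] at h9
      exact h9
    rw [Finset.mul_sum]
    have h7 : ∑ l, X l * c l g - ∑ l, ((((cyc i₀ g) ^ r : ℤ_[3]ˣ) : ℤ_[3]) - 1) * (X l * y l) =
        ∑ l, X l * b l g := by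
      rw [← Finset.sum_sub_distrib]
      refine Finset.sum_congr rfl fun l _ => ?_
      rw [hb]
      ring
    rw [h6] at h7
    exact sub_eq_zero.1 h7

end

end Pool.Agent.N848.SM
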