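import Pool.Agent.N848.SM.Kv
import Pool.Agent.N848.Sch.L

/-!
# Project SM: the elementary form of the Selmer group
-/

set_option autoImplicit false
set_option linter.unusedSectionVars false

namespace Pool.Agent.N848.SM

open Pool.Agent.N848.Sch
open Pool.Agent.Y692.QS
open Pool.Agent.Y715.T.Gi Pool.Agent.Y715.T.Nr Pool.Agent.Y715.T.Red Pool.Agent.Y715.T.Df
open Pool.Agent.Y715.T.Thr Pool.Agent.Y715.T.Sel
open Pool.Agent.Y715.T.Rec (cs)
open Pool.Agent.Y715.T.RecG (Pq)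
open Pool.Agent.N883.FF (nq)

/-- the power `p ^ (3 a) u` of a cube `u` modulo `p`: a cube in the completion at `p` -/
def LocCube (p x : Ei) : Prop := ∃ (a : ℕ) (u y : Ei), x = p ^ (3 * a) * u ∧ ¬ p ∣ u ∧ p ∣ u - y ^ 3

/-- the elementary Selmer group -/
def selm (D : Ei) : Set Ei :=
  {δ | (9 : Ei) ∣ δ - 1 ∧ (∀ x : Ei, x ^ 3 ∣ δ → IsUnit x) ∧
    (∀ p : Ei, Prime p → p ∣ δ → p ∣ D) ∧
    ∀ p : Ei, Prime p → (3 : Ei) ∣ p - 1 → p ∣ D → ∃ t : ℕ, LocCube p (δ * D ^ t)}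

lemma pow_uniq {p u v : Ei} (hp : Prime p) (hu : ¬ p ∣ u) (hv : ¬ p ∣ v) {m n : ℕ}
    (h : p ^ m * u = p ^ n * v) : m = n ∧ u = v := by
  have key : ∀ {m n : ℕ} {u v : Ei}, ¬ p ∣ u → p ^ m * u = p ^ n * v → n ≤ m := by
    intro m n u v hu h
    by_contra hlt
    push Not at hlt
    obtain ⟨l, rfl⟩ := Nat.exists_eq_add_of_lt hlt
    have h1 : p ^ m * u = p ^ m * (p * (p ^ l * v)) := by
      rw [h, show m + l + 1 = m + 1 + l by ring, pow_add, pow_add, pow_one]
      ring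
    have h2 := mul_left_cancel₀ (pow_ne_zero m hp.ne_zero) h1
    exact hu ⟨_, h2⟩
  have h1 : m = n := le_antisymm (key hv h.symm) (key hu h)
  refine ⟨h1, ?_⟩
  rw [h1] at h
  exact mul_left_cancel₀ (pow_ne_zero n hp.ne_zero) h

lemma loc_iff {p u : Ei} (hp : Pq p) (hu : ¬ p ∣ u) (m : ℕ) :
    LocCube p (p ^ m * u) ↔ 3 ∣ m ∧ cs p u = 0 := by
  rw [Pool.Agent.Y715.T.RecG.cs_zero_iff hp.prime hp.norm hu]
  constructor
  · rintro ⟨a, u', y, h1, h2, h3⟩
    obtain ⟨h4, h5⟩ := pow_uniq hp.prime hu h2 h1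
    exact ⟨⟨a, h4⟩, y, by rw [h5]; exact h3⟩
  · rintro ⟨⟨a, rfl⟩, y, h⟩
    exact ⟨a, u, y, rfl, hu, h⟩

variable {J : Type} [Fintype J] [DecidableEq J] {π : J → Ei} {e : J → ZMod 3}

lemma esq {c : ZMod 3} (h : c ≠ 0) : c * c = 1 := by
  revert c
  decide

/-- the local condition -/
lemma loc_DD (hπ : PP π) (he : ∀ j, e j ≠ 0) (i : ZMod 3) (q : ℕ) {x : J → ℕ} {v : J → ZMod 3}
    (hx : ∀ j, (x j : ZMod 3) = e j * v j) (j : J) :
    (∃ t : ℕ, LocCube (π j) ((∏ l, π l ^ x l) * DD i q π e ^ t)) ↔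
      ∑ l, e l * cs (π j) (π l) * (v l - v j) = lbl i q (π j) * v j := by
  have hpj := (hπ.pq j).prime
  have h9 := (hπ.pq j).norm
  have hnd1 : ∀ i ∈ Finset.univ.erase j, ¬ π j ∣ π i := fun i hij =>
    hπ.nd i j (Finset.ne_of_mem_erase hij)
  have hw1 : ¬ π j ∣ w ^ i.val * lam ^ q := by
    rw [hpj.dvd_mul]
    push Not
    exact ⟨not_dvd_unit (hπ.pq j) i, not_dvd_lam (hπ.pq j) q⟩
  have key : ∀ t : ℕ, (LocCube (π j) ((∏ l, π l ^ x l) * DD i q π e ^ t) ↔
      ((t : ZMod 3) = - v j ∧ ∑ l, e l * cs (π j) (π l) * (v l - v j) = lbl i q (π j) * v j)) := by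
    intro t
    set y : J → ℕ := fun l => x l + (e l).val * t with hy
    have hwt : ¬ π j ∣ (w ^ i.val * lam ^ q) ^ t := fun h => hw1 (hpj.dvd_of_dvd_pow h)
    have hnd : ¬ π j ∣ (w ^ i.val * lam ^ q) ^ t * ∏ l ∈ Finset.univ.erase j, π l ^ y l := by
      rw [hpj.dvd_mul]
      push Not
      exact ⟨hwt, hπ.not_dvd_prod j y⟩
    have e1 : (∏ l, π l ^ x l) * DD i q π e ^ t =
        π j ^ y j * ((w ^ i.val * lam ^ q) ^ t * ∏ l ∈ Finset.univ.erase j, π l ^ y l) := by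
      have e2 : (∏ l, π l ^ x l) * DD i q π e ^ t =
          (w ^ i.val * lam ^ q) ^ t * ∏ l, π l ^ y l := by
        unfold DD
        rw [mul_pow, ← Finset.prod_pow]
        have e3 : ∏ l, π l ^ y l = (∏ l, π l ^ x l) * ∏ l, (π l ^ (e l).val) ^ t := by
          rw [← Finset.prod_mul_distrib]
          refine Finset.prod_congr rfl fun l _ => ?_
          rw [hy, ← pow_mul, ← pow_add]
        rw [e3]
        ring
      rw [e2, ← Finset.mul_prod_erase Finset.univ (fun l => π l ^ y l) (Finset.mem_univ j)]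
      ring
    have hyc : ∀ l, (y l : ZMod 3) = e l * (v l + t) := by
      intro l
      rw [hy]
      push_cast
      rw [hx l, ZMod.natCast_zmod_val]
      ring
    rw [e1, loc_iff (hπ.pq j) hnd]
    have h1 : 3 ∣ y j ↔ (t : ZMod 3) = - v j := by
      rw [← ZMod.natCast_eq_zero_iff, hyc j]
      constructor
      · intro h
        have := (mul_eq_zero.1 h).resolve_left (he j)
        linear_combination this
      · intro h
        rw [h]
        ring
    rw [h1]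
    refine and_congr_right fun ht => ?_
    rw [Pool.Agent.Y715.T.RecG.cs_mul hpj h9 hwt (hπ.not_dvd_prod j y),
      Pool.Agent.Y715.T.RecG.cs_pow hpj h9 hw1,
      Pool.Agent.Y715.T.RecG.cs_mul hpj h9 (not_dvd_unit (hπ.pq j) i) (not_dvd_lam (hπ.pq j) q),
      Pool.Agent.Y715.T.RecG.cs_pow hpj h9 (fun h => hpj.not_isUnit (isUnit_of_dvd_unit h w_un)),
      Pool.Agent.Y715.T.RecG.cs_pow hpj h9 (pq_not_lam (hπ.pq j)),
      Pool.Agent.N883.FF.Sel.cs_w (hπ.pq j),
      Pool.Agent.Y715.T.RecG.cs_prod hpj h9 _ _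
      (fun i hij h1 => hnd1 i hij (hpj.dvd_of_dvd_pow h1)), ZMod.natCast_zmod_val, ht]
    rw [← Finset.add_sum_erase Finset.univ _ (Finset.mem_univ j), sub_self, mul_zero, zero_add]
    have e2 : ∑ i ∈ Finset.univ.erase j, cs (π j) (π i ^ y i) =
        ∑ i ∈ Finset.univ.erase j, e i * cs (π j) (π i) * (v i - v j) := by
      refine Finset.sum_congr rfl fun i hij => ?_
      rw [Pool.Agent.Y715.T.RecG.cs_pow hpj h9 (hnd1 i hij), hyc i, ht]
      ring
    rw [e2]
    unfold lbl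
    constructor
    · intro h
      linear_combination h
    · intro h
      linear_combination h
  constructor
  · rintro ⟨t, ht⟩
    exact ((key t).1 ht).2
  · intro h
    refine ⟨(- v j).val, (key _).2 ⟨ZMod.natCast_zmod_val _, h⟩⟩

/-- the element of a vector -/
noncomputable def elv (π : J → Ei) (e v : J → ZMod 3) : Ei := ∏ j, π j ^ (e j * v j).val

lemma elv_inj (hπ : PP π) (he : ∀ j, e j ≠ 0) {v v' : J → ZMod 3}
    (h : elv π e v = elv π e v') : v = v' := by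
  funext j
  unfold elv at h
  rw [← Finset.mul_prod_erase Finset.univ (fun l => π l ^ (e l * v l).val) (Finset.mem_univ j),
    ← Finset.mul_prod_erase Finset.univ (fun l => π l ^ (e l * v' l).val) (Finset.mem_univ j)] at h
  have h1 := (pow_uniq (hπ.pq j).prime (hπ.not_dvd_prod j fun l => (e l * v l).val)
    (hπ.not_dvd_prod j fun l => (e l * v' l).val) h).1
  exact mul_left_cancel₀ (he j) (ZMod.val_injective 3 h1)

lemma eq_of_dvd_pi {π' : Ei} (h : Pq π') {ρ : Ei} (h' : Prime ρ) (h3 : (3 : Ei) ∣ ρ - 1)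
    (hd : ρ ∣ π') : ρ = π' := Pool.Agent.Y274.CT.eq_of_dvd h ⟨h', h3⟩ hd

lemma unit_prm {u : Ei} (hu : IsUnit u) (h3 : (3 : Ei) ∣ u - 1) : u = 1 := by
  rw [← ns_fix h3, ns_unit hu]

lemma cf_pi (hπ : PP π) {x : J → ℕ} (hx : ∀ j, x j < 3) {d : Ei} (hd : d ^ 3 ∣ ∏ j, π j ^ x j) :
    IsUnit d := by
  by_contra hu
  have hd0 : d ≠ 0 := by
    rintro rfl
    rw [zero_pow three_ne_zero, zero_dvd_iff] at hd
    exact prod_ne hπ _ hd
  obtain ⟨ρ, hρi, hρd⟩ := WfDvdMonoid.exists_irreducible_factor hu hd0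
  have hρ : Prime ρ := hρi.prime
  have h1 : ρ ^ 3 ∣ ∏ j, π j ^ x j := (pow_dvd_pow_of_dvd hρd 3).trans hd
  have h2 : ρ ∣ ∏ j, π j ^ x j := (dvd_pow_self ρ three_ne_zero).trans h1
  rw [hρ.dvd_finsetProd_iff] at h2
  obtain ⟨j, -, hj⟩ := h2
  have hass : Associated ρ (π j) :=
    (hρ.dvd_prime_iff_associated (hπ.pq j).prime).1 (hρ.dvd_of_dvd_pow hj)
  have h4 : π j ^ 3 ∣ ∏ j, π j ^ x j := (hass.pow_pow (n := 3)).symm.dvd.trans h1
  obtain ⟨c, hc⟩ := h4
  rw [← Finset.mul_prod_erase Finset.univ (fun l => π l ^ x l) (Finset.mem_univ j)] at hc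
  obtain ⟨m, hm⟩ : ∃ m, 3 = x j + (m + 1) := ⟨2 - x j, by have := hx j; omega⟩
  have h5 : π j ^ x j * ∏ l ∈ Finset.univ.erase j, π l ^ x l =
      π j ^ x j * (π j * (π j ^ m * c)) := by
    rw [hc]
    calc π j ^ 3 * c = π j ^ (x j + (m + 1)) * c := by rw [← hm]
      _ = _ := by ring
  exact hπ.not_dvd_prod j x ⟨_, mul_left_cancel₀ (pow_ne_zero _ (hπ.p0 j)) h5⟩

lemma dvd_DD {i : ZMod 3} {q : ℕ} {p : Ei} (hp : Prime p) :
    p ∣ DD i q π e → p ∣ lam ∨ ∃ j, e j ≠ 0 ∧ p ∣ π j := by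
  intro h
  unfold DD at h
  rcases hp.dvd_or_dvd h with h | h
  · rcases hp.dvd_or_dvd h with h | h
    · exact absurd (isUnit_of_dvd_unit h (w_un.pow _)) hp.not_isUnit
    · exact Or.inl (hp.dvd_of_dvd_pow h)
  · rw [hp.dvd_finsetProd_iff] at h
    obtain ⟨j, -, hj⟩ := h
    refine Or.inr ⟨j, fun h0 => ?_, hp.dvd_of_dvd_pow hj⟩
    rw [h0, ZMod.val_zero, pow_zero] at hj
    exact hp.not_isUnit (isUnit_of_dvd_one hj)

lemma lam_three : lam ∣ (3 : Ei) := by
  have e : (3 : Ei) = -(lam * lam) := by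
    have := Pool.Agent.Y715.T.Gi.lam_sq
    rw [pow_two] at this
    rw [this, neg_neg]
  rw [e]
  exact (dvd_neg).2 (dvd_mul_right _ _)

lemma nine_three : (3 : Ei) ∣ 9 := ⟨3, by norm_num⟩

/-- **The elementary Selmer group.** -/
theorem selm_eq (hπ : PP π) (he : ∀ j, e j ≠ 0) (i : ZMod 3) (q : ℕ) :
    selm (DD i q π e) = elv π e '' Sol i q π e := by
  have hxv : ∀ (v : J → ZMod 3) (j : J), (((e j * v j).val : ℕ) : ZMod 3) = e j * v j :=
    fun v j => ZMod.natCast_zmod_val _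
  have hpi : ∀ {p : Ei}, Prime p → (3 : Ei) ∣ p - 1 → p ∣ DD i q π e → ∃ j, p = π j := by
    intro p hp h3 hd
    rcases dvd_DD hp hd with h | ⟨j, -, h⟩
    · exfalso
      have h1 : p ∣ 1 := by
        have := dvd_sub (dvd_refl p) ((h.trans lam_three).trans h3)
        rwa [sub_sub_cancel] at this
      exact hp.not_isUnit (isUnit_of_dvd_one h1)
    · exact ⟨j, eq_of_dvd_pi (hπ.pq j) hp h3 h⟩
  have hdD : ∀ j, π j ∣ DD i q π e := by
    intro j
    unfold DD
    refine Dvd.dvd.mul_left ?_ _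
    refine dvd_trans ?_ (Finset.dvd_prod_of_mem _ (Finset.mem_univ j))
    refine dvd_pow_self _ fun h => he j ?_
    exact (ZMod.val_eq_zero _).1 h
  ext δ
  constructor
  · rintro ⟨h9, hcf, hsup, hloc⟩
    have hlam : ¬ lam ∣ δ := by
      intro h
      have h1 : lam ∣ 1 := by
        have := dvd_sub h ((lam_three.trans nine_three).trans h9)
        rwa [sub_sub_cancel] at this
      exact prime_lam.not_isUnit (isUnit_of_dvd_one h1)
    have hδ0 : δ ≠ 0 := by
      rintro rfl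
      exact hlam (dvd_zero _)
    obtain ⟨u, g, x, hu, ez⟩ := fac (π := π) δ hδ0 (fun ρ hρ hd => by
      rcases dvd_DD hρ (hsup ρ hρ hd) with h | ⟨j, -, h⟩
      · exact Or.inl ((hρ.dvd_prime_iff_associated prime_lam).1 h)
      · exact Or.inr ⟨j, (hρ.dvd_prime_iff_associated (hπ.pq j).prime).1 h⟩)
    have hg : g = 0 := by
      by_contra hg
      apply hlam
      rw [ez]
      exact Dvd.dvd.mul_right (Dvd.dvd.mul_left (dvd_pow_self _ hg) _) _
    rw [hg, pow_zero, mul_one] at ez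
    have hu1 : u = 1 := by
      apply unit_prm hu
      have h1 := hπ.prod_form x
      have h2 : (3 : Ei) ∣ u * ∏ j, π j ^ x j - 1 := by
        rw [← ez]
        exact nine_three.trans h9
      have e1 : u - 1 = (u * ∏ j, π j ^ x j - 1) - u * (∏ j, π j ^ x j - 1) := by ring
      rw [e1]
      exact dvd_sub h2 (Dvd.dvd.mul_left h1 _)
    rw [hu1, one_mul] at ez
    have hx3 : ∀ j, x j < 3 := by
      intro j
      by_contra h3
      push Not at h3
      obtain ⟨m, hm⟩ := Nat.exists_eq_add_of_le h3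
      apply (hπ.pq j).prime.not_isUnit
      apply hcf
      rw [ez]
      refine dvd_trans ?_ (Finset.dvd_prod_of_mem _ (Finset.mem_univ j))
      rw [hm]
      exact pow_dvd_pow _ (Nat.le_add_right _ _)
    have hxe : ∀ j, (x j : ZMod 3) = e j * (e j * x j) := by
      intro j
      rw [← mul_assoc, esq (he j), one_mul]
    have hxv' : ∀ j, (e j * (e j * (x j : ZMod 3))).val = x j := by
      intro j
      rw [← hxe j, ZMod.val_natCast, Nat.mod_eq_of_lt (hx3 j)]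
    refine ⟨fun j => e j * x j, ⟨fun j => ?_, ?_⟩, ?_⟩
    · rw [← loc_DD hπ he i q hxe j, ← ez]
      exact hloc _ (hπ.pq j).prime (hπ.pq j).three (hdD j)
    · rw [Finset.prod_congr rfl fun j _ => congrArg (fun n => π j ^ n) (hxv' j), ← ez]
      exact h9
    · unfold elv
      rw [ez]
      exact Finset.prod_congr rfl fun j _ => congrArg (fun n => π j ^ n) (hxv' j)
  · rintro ⟨v, ⟨h1, h2⟩, rfl⟩
    refine ⟨h2, fun x hx => cf_pi hπ (fun j => ZMod.val_lt _) hx, fun p hp hd => ?_,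
      fun p hp h3 hd => ?_⟩
    · unfold elv at hd
      rw [hp.dvd_finsetProd_iff] at hd
      obtain ⟨j, -, hj⟩ := hd
      exact (hp.dvd_of_dvd_pow hj).trans (hdD j)
    · obtain ⟨j, rfl⟩ := hpi hp h3 hd
      exact (loc_DD hπ he i q (hxv v) j).2 (h1 j)

/-- the number of the elements of the Selmer group -/
theorem selm_card (hπ : PP π) (he : ∀ j, e j ≠ 0) (i : ZMod 3) (q : ℕ) :
    (selm (DD i q π e)).ncard = (Sol i q π e).ncard := by
  rw [selm_eq hπ he i q]
  exact Set.ncard_image_of_injective _ fun v v' h => elv_inj hπ he h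

lemma loc_neg {p x : Ei} : LocCube p (-x) ↔ LocCube p x := by
  have key : ∀ {x : Ei}, LocCube p x → LocCube p (-x) := by
    rintro x ⟨a, u, y, h1, h2, h3⟩
    refine ⟨a, -u, -y, by rw [h1]; ring, by rwa [dvd_neg], ?_⟩
    have e1 : -u - (-y) ^ 3 = -(u - y ^ 3) := by ring
    rw [e1]
    exact (dvd_neg).2 h3
  refine ⟨fun h => ?_, key⟩
  have := key h
  rwa [neg_neg] at this

/-- the sign does not matter -/
theorem selm_neg (D : Ei) : selm (-D) = selm D := by
  have h1 : ∀ (p δ : Ei) (t : ℕ), LocCube p (δ * (-D) ^ t) ↔ LocCube p (δ * D ^ t) := by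
    intro p δ t
    rcases Nat.even_or_odd t with h | h
    · rw [h.neg_pow]
    · rw [h.neg_pow, mul_neg, loc_neg]
  unfold selm
  simp only [dvd_neg, h1]

end Pool.Agent.N848.SM
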